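import Pool.Agent.H23.QN.Defs

/-! Common elementary facts on quarter plane functions (used by several parts). -/

namespace H23.QN

open Filter Topology Set

lemma om_zero : om 0 = 0 := by simp [om]

lemma om_nonneg (k : ℤ) : 0 ≤ om k := by unfold om; positivity

lemma om_one : om 1 = 4 * Real.pi ^ 2 := by simp [om]

lemma om_one_gt : 39 < om 1 := by
  rw [om_one]; nlinarith [Real.pi_gt_d2]

lemma om_one_lt : om 1 < 40 := by
  rw [om_one]; nlinarith [Real.pi_lt_d2, Real.pi_pos]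

lemma om_ge {k : ℤ} (hk : k ≠ 0) : om 1 ≤ om k := by
  unfold om
  have h1 : (1:ℝ) ≤ (k:ℝ) ^ 2 := by
    have : 1 ≤ k ^ 2 := by
      have := Int.one_le_abs hk
      nlinarith [sq_abs k]
    exact_mod_cast this
  have h2 : 0 ≤ 4 * Real.pi ^ 2 := by positivity
  simp only [Int.cast_one, one_pow, mul_one]
  nlinarith

variable {ν : ℝ} [Fact (1 ≤ ν)]

lemma norm_q_le (a : WA ν ℂ) : ‖(WA.mf a * WA.mf a : WA ν ℂ) 0‖ ≤ ‖WA.mf a‖ ^ 2 := by
  rw [pow_two]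
  exact (WA.coef_le _ 0).trans (WA.norm_mul_le' _ _)

variable {V : ℝ → ℝ → WA ν ℂ}

lemma IsQP.m_h (hV : IsQP V) {σ T : ℝ} (hσ : 0 ≤ σ) (hT : 0 ≤ T) :
    HasDerivWithinAt (fun x => V x T 0)
      (1 * ((V σ T 0) ^ 2 + (WA.mf (V σ T) * WA.mf (V σ T)) 0)) (Ici σ) σ := by
  have h := hV.heat T hT σ hσ 0
  rw [WA.sq_zero_coef] at h
  exact h.congr_deriv (by simp [om_zero])

lemma IsQP.m_v (hV : IsQP V) {σ T : ℝ} (hσ : 0 ≤ σ) (hT : 0 ≤ T) :
    HasDerivWithinAt (fun y => V σ y 0)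
      (Complex.I * ((V σ T 0) ^ 2 + (WA.mf (V σ T) * WA.mf (V σ T)) 0)) (Ici T) T := by
  have h := hV.schr σ hσ T hT 0
  rw [WA.sq_zero_coef] at h
  exact h.congr_deriv (by simp [om_zero])

lemma IsQP.contH (hV : IsQP V) {T : ℝ} (hT : 0 ≤ T) : ContinuousOn (fun x => V x T) (Ici 0) := by
  have h : ContinuousOn (fun x : ℝ => (x, T)) (Ici 0) := by fun_prop
  have hm : MapsTo (fun x : ℝ => (x, T)) (Ici 0) (Ici 0 ×ˢ Ici 0) := fun x hx => ⟨hx, hT⟩
  exact ContinuousOn.comp (g := fun p : ℝ × ℝ => V p.1 p.2) hV.cont h hm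

lemma IsQP.contV (hV : IsQP V) {σ : ℝ} (hσ : 0 ≤ σ) : ContinuousOn (fun y => V σ y) (Ici 0) := by
  have h : ContinuousOn (fun y : ℝ => (σ, y)) (Ici 0) := by fun_prop
  have hm : MapsTo (fun y : ℝ => (σ, y)) (Ici 0) (Ici 0 ×ˢ Ici 0) := fun x hx => ⟨hσ, hx⟩
  exact ContinuousOn.comp (g := fun p : ℝ × ℝ => V p.1 p.2) hV.cont h hm

lemma IsQP.contH0 (hV : IsQP V) {T : ℝ} (hT : 0 ≤ T) (k : ℤ) :
    ContinuousOn (fun x => V x T k) (Ici 0) :=
  (WA.continuous_coef k).comp_continuousOn (hV.contH hT)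

lemma IsQP.contV0 (hV : IsQP V) {σ : ℝ} (hσ : 0 ≤ σ) (k : ℤ) :
    ContinuousOn (fun y => V σ y k) (Ici 0) :=
  (WA.continuous_coef k).comp_continuousOn (hV.contV hσ)

/-- `m² + q` is continuous on the quarter plane -/
lemma IsQP.cont_f (hV : IsQP V) : ContinuousOn
    (fun p : ℝ × ℝ => (V p.1 p.2 0) ^ 2 + (WA.mf (V p.1 p.2) * WA.mf (V p.1 p.2)) 0)
    (Ici 0 ×ˢ Ici 0) := by
  have h0 : ContinuousOn (fun p : ℝ × ℝ => V p.1 p.2 0) (Ici 0 ×ˢ Ici 0) :=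
    (WA.continuous_coef 0).comp_continuousOn hV.cont
  have h1 : ContinuousOn (fun p : ℝ × ℝ => WA.mf (V p.1 p.2)) (Ici 0 ×ˢ Ici 0) :=
    WA.continuous_mf.comp_continuousOn hV.cont
  exact (h0.pow 2).add ((WA.continuous_coef 0).comp_continuousOn (h1.mul h1))

/-- integrated equation for the mean, horizontally -/
lemma IsQP.int_h (hV : IsQP V) {a b T : ℝ} (ha : 0 ≤ a) (hab : a ≤ b) (hT : 0 ≤ T) :
    V b T 0 - V a T 0
      = ∫ σ in a..b, ((V σ T 0) ^ 2 + (WA.mf (V σ T) * WA.mf (V σ T)) 0) := by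
  symm
  have hsub : Icc a b ⊆ Ici 0 := fun x hx => ha.trans hx.1
  refine intervalIntegral.integral_eq_sub_of_hasDeriv_right_of_le (f := fun x => V x T 0) hab
    ((hV.contH0 hT 0).mono hsub) (fun s hs => ?_) ?_
  · have := (hV.m_h (σ := s) (T := T) (ha.trans hs.1.le) hT).mono Ioi_subset_Ici_self
    exact this.congr_deriv (by ring)
  · apply ContinuousOn.intervalIntegrable
    rw [uIcc_of_le hab]
    have h : ContinuousOn (fun x : ℝ => (x, T)) (Icc a b) := by fun_prop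
    have hm : MapsTo (fun x : ℝ => (x, T)) (Icc a b) (Ici 0 ×ˢ Ici 0) :=
      fun x hx => ⟨hsub hx, hT⟩
    have h2 := ContinuousOn.comp (g := fun p : ℝ × ℝ =>
      (V p.1 p.2 0) ^ 2 + (WA.mf (V p.1 p.2) * WA.mf (V p.1 p.2)) 0) hV.cont_f h hm
    exact h2

/-- integrated equation for the mean, vertically -/
lemma IsQP.int_v (hV : IsQP V) {a b σ : ℝ} (ha : 0 ≤ a) (hab : a ≤ b) (hσ : 0 ≤ σ) :
    V σ b 0 - V σ a 0
      = Complex.I * ∫ T in a..b, ((V σ T 0) ^ 2 + (WA.mf (V σ T) * WA.mf (V σ T)) 0) := by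
  symm
  have hsub : Icc a b ⊆ Ici 0 := fun x hx => ha.trans hx.1
  rw [← intervalIntegral.integral_const_mul]
  refine intervalIntegral.integral_eq_sub_of_hasDeriv_right_of_le (f := fun y => V σ y 0) hab
    ((hV.contV0 hσ 0).mono hsub) (fun s hs => ?_) ?_
  · exact (hV.m_v (σ := σ) (T := s) hσ (ha.trans hs.1.le)).mono Ioi_subset_Ici_self
  · apply ContinuousOn.intervalIntegrable
    rw [uIcc_of_le hab]
    have h : ContinuousOn (fun y : ℝ => (σ, y)) (Icc a b) := by fun_prop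
    have hm : MapsTo (fun y : ℝ => (σ, y)) (Icc a b) (Ici 0 ×ˢ Ici 0) :=
      fun x hx => ⟨hσ, hsub hx⟩
    have h2 := ContinuousOn.comp (g := fun p : ℝ × ℝ =>
      (V p.1 p.2 0) ^ 2 + (WA.mf (V p.1 p.2) * WA.mf (V p.1 p.2)) 0) hV.cont_f h hm
    exact continuousOn_const.mul h2

end H23.QN
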