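import Pool.Agent.H23.QN.Space

/-!
# Quadratic NLS (MP_b9a139_an): interface of the crew

Every part proves `theorem XX : S_XX` (or `theorem XX (h : S_YY) : S_XX`), in its own module
`Pool/Agent/H23/QN/P_XX.lean`.
-/

namespace H23.QN

open Filter Topology Set
open scoped BigOperators

noncomputable section

/-- `ω_k = 4π²k²`. -/
def om (k : ℤ) : ℝ := 4 * Real.pi ^ 2 * (k : ℝ) ^ 2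

/-- `U` solves `U_k' = -c ω_k U_k + N_k` coefficientwise on `[0, L]` (right derivatives), with `U`
and `N` continuous in the norm. -/
structure IsLin {ν : ℝ} [Fact (1 ≤ ν)] (c : ℂ) (L : ℝ) (U N : ℝ → WA ν ℂ) : Prop where
  contU : ContinuousOn U (Icc 0 L)
  contN : ContinuousOn N (Icc 0 L)
  deriv : ∀ k : ℤ, ∀ t ∈ Ico 0 L,
    HasDerivWithinAt (fun s => U s k) (-(c * (om k : ℂ) * U t k) + N t k) (Ici t) t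

/-! ### Part L1: Duhamel bound -/

def S_L1 : Prop :=
  ∀ (ν : ℝ) [Fact (1 ≤ ν)] (c : ℂ) (L β : ℝ) (U N : ℝ → WA ν ℂ), 0 ≤ L → IsLin c L U N →
    (∀ k : ℤ, (∀ t ∈ Icc 0 L, U t k = 0 ∧ N t k = 0) ∨ β ≤ c.re * om k) →
    ∀ t ∈ Icc 0 L, ‖U t‖ ≤ Real.exp (-β * t) * ‖U 0‖
      + ∫ τ in (0:ℝ)..t, Real.exp (-β * (t - τ)) * ‖N τ‖

/-! ### Part G: Gronwall consequences -/

def S_G1 : Prop :=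
  ∀ (ν : ℝ) [Fact (1 ≤ ν)] (c : ℂ) (L β K : ℝ) (U N : ℝ → WA ν ℂ), 0 ≤ L → 0 ≤ K →
    IsLin c L U N →
    (∀ k : ℤ, (∀ t ∈ Icc 0 L, U t k = 0 ∧ N t k = 0) ∨ β ≤ c.re * om k) →
    (∀ t ∈ Icc 0 L, ‖N t‖ ≤ K * ‖U t‖) →
    ∀ t ∈ Icc 0 L, ‖U t‖ ≤ ‖U 0‖ * Real.exp ((K - β) * t)

def S_G2 : Prop :=
  ∀ (ν : ℝ) [Fact (1 ≤ ν)] (c : ℂ) (L K η : ℝ) (U N : ℝ → WA ν ℂ), 0 ≤ L → 0 ≤ K → 0 ≤ η →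
    0 ≤ c.re → IsLin c L U N →
    (∀ t ∈ Icc 0 L, ‖N t‖ ≤ K * ‖U t‖ + η) →
    ∀ t ∈ Icc 0 L, ‖U t‖ ≤ (‖U 0‖ + η * t) * Real.exp (K * t)

/-! ### Part BT: bootstrap -/

def S_BT : Prop :=
  ∀ (f : ℝ → ℝ) (L B : ℝ), 0 ≤ L → ContinuousOn f (Icc 0 L) → f 0 < B →
    (∀ t ∈ Icc 0 L, (∀ τ ∈ Icc 0 t, f τ ≤ B) → f t < B) → ∀ t ∈ Icc 0 L, f t < B

/-! ### Quarter plane functions -/

/-- `V σ T`, `σ, T ≥ 0`: continuous, heat equation in `σ`, Schrödinger equation in `T`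
(right derivatives of all Fourier coefficients). -/
structure IsQP {ν : ℝ} [Fact (1 ≤ ν)] (V : ℝ → ℝ → WA ν ℂ) : Prop where
  cont : ContinuousOn (fun p : ℝ × ℝ => V p.1 p.2) (Ici 0 ×ˢ Ici 0)
  heat : ∀ T : ℝ, 0 ≤ T → ∀ σ : ℝ, 0 ≤ σ → ∀ k : ℤ,
    HasDerivWithinAt (fun x => V x T k)
      (-((om k : ℂ) * V σ T k) + (V σ T * V σ T) k) (Ici σ) σ
  schr : ∀ σ : ℝ, 0 ≤ σ → ∀ T : ℝ, 0 ≤ T → ∀ k : ℤ,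
    HasDerivWithinAt (fun y => V σ y k)
      (Complex.I * (-((om k : ℂ) * V σ T k) + (V σ T * V σ T) k)) (Ici T) T

/-! ### Part HD: horizontal decay of the mean-free part -/

def S_HD : Prop :=
  ∀ (ν : ℝ) [Fact (1 ≤ ν)] (V : ℝ → ℝ → WA ν ℂ), IsQP V →
    ∀ T σ0 σ1 : ℝ, 0 ≤ T → 0 ≤ σ0 → σ0 ≤ σ1 →
    (∀ σ ∈ Icc σ0 σ1, ‖V σ T 0‖ ≤ 1 / 2) → ‖WA.mf (V σ0 T)‖ ≤ 1 →
    ∀ σ ∈ Icc σ0 σ1, ‖WA.mf (V σ T)‖ ≤ ‖WA.mf (V σ0 T)‖ * Real.exp (-30 * (σ - σ0))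

/-! ### Part VG: vertical growth of the mean-free part -/

def S_VG : Prop :=
  ∀ (ν : ℝ) [Fact (1 ≤ ν)] (V : ℝ → ℝ → WA ν ℂ), IsQP V →
    ∀ σ T0 T1 : ℝ, 0 ≤ σ → 0 ≤ T0 → T0 ≤ T1 → T1 ≤ T0 + 8 →
    (∀ T ∈ Icc T0 T1, ‖V σ T 0‖ ≤ 1 / 2) → ‖WA.mf (V σ T0)‖ ≤ Real.exp (-17) →
    ∀ T ∈ Icc T0 T1, ‖WA.mf (V σ T)‖ ≤ ‖WA.mf (V σ T0)‖ * Real.exp 16

/-! ### Part LC: left control -/

def S_LC : Prop :=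
  ∀ (ν : ℝ) [Fact (1 ≤ ν)] (V : ℝ → ℝ → WA ν ℂ), IsQP V →
    ∀ T δ : ℝ, 0 ≤ T → 0 < δ → ‖V 0 T‖ ≤ δ →
    ∀ σ : ℝ, 0 ≤ σ → 4 * δ * σ ≤ 1 → ‖V σ T‖ ≤ 2 * δ

/-! ### Part RC: right control -/

def S_RC : Prop :=
  ∀ (ν : ℝ) [Fact (1 ≤ ν)] (V : ℝ → ℝ → WA ν ℂ), IsQP V →
    ∀ σ T κ : ℝ, 0 ≤ σ → 0 ≤ T → 0 < κ → ‖V σ 0‖ ≤ κ → 4 * κ * T ≤ 1 → ‖V σ T‖ ≤ 2 * κ

/-! ### Part RA: asymptotics of the first coefficient on the right -/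

def S_RA : Prop :=
  ∀ (ν : ℝ) [Fact (1 ≤ ν)] (V : ℝ → ℝ → WA ν ℂ), IsQP V →
    ∀ (C : ℝ) (a : ℂ), (∀ σ : ℝ, 0 ≤ σ → ‖V σ 0‖ ≤ C * Real.exp (-30 * σ)) →
    Tendsto (fun σ : ℝ => (Real.exp (om 1 * σ) : ℂ) * V σ 0 1) atTop (𝓝 a) →
    ∀ T : ℝ, 0 ≤ T →
      Tendsto (fun σ : ℝ => (Real.exp (om 1 * σ) : ℂ) * V σ T 1) atTop
        (𝓝 (Complex.exp (-(Complex.I * (om 1 : ℂ) * T)) * a))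

/-! ### Part SEL: selection of the extremal point (pure topology of the plane) -/

def S_SEL : Prop :=
  ∀ (M : ℝ → ℝ → ℝ), ContinuousOn (fun p : ℝ × ℝ => M p.1 p.2) (Ici 0 ×ˢ Ici 0) →
    (∀ c : ℝ, ∃ T' : ℝ, ∀ T ≥ T', ∀ σ ∈ Icc 0 c, M σ T < 1 / 10) →
    (∃ T' : ℝ, ∀ T ≥ T', ∀ σ : ℝ, T / 2 ≤ σ → M σ T < 1 / 10) →
    (¬ ∃ Tb : ℝ, ∀ T ≥ Tb, ∀ σ : ℝ, 0 ≤ σ → M σ T < 1 / 10) →
    ∀ T0 B : ℝ, 0 ≤ T0 → ∃ σ1 T1 : ℝ, T0 + 100 ≤ T1 ∧ B ≤ σ1 ∧ 0 ≤ σ1 ∧ M σ1 T1 = 1 / 10 ∧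
      ∀ T ∈ Icc (T1 - 20) (T1 + 20), ∀ σ : ℝ, 0 ≤ σ → σ < σ1 - |T - T1| → M σ T < 1 / 10

/-! ### Part QS: scalar propagation lemma for `Q = m D - z₀` -/

def S_QS : Prop :=
  ∀ (d z0 : ℂ) (m q D : ℝ → ℂ) (a b M η Λ : ℝ), ‖d‖ = 1 → a ≤ b → 0 ≤ M → 0 ≤ η → 0 ≤ Λ →
    ContinuousOn m (Icc a b) →
    (∀ x ∈ Ico a b, HasDerivWithinAt m (d * (m x ^ 2 + q x)) (Ici x) x) →
    (∀ x, HasDerivAt D (-(d * z0)) x) →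
    (∀ x ∈ Icc a b, ‖m x‖ ≤ M ∧ ‖q x‖ ≤ η ∧ ‖D x‖ ≤ Λ) →
    ∀ x ∈ Icc a b, ‖m x * D x - z0‖ ≤
      (‖m a * D a - z0‖ + η * Λ * (b - a)) * Real.exp (M * (b - a))

/-! ### Part CT: the contour argument -/

def S_CT : Prop :=
  ∀ (m f : ℝ → ℝ → ℂ) (x y : ℝ),
    ContinuousOn (fun p : ℝ × ℝ => f p.1 p.2) (Icc (x - 4) (x + 4) ×ˢ Icc (y - 4) (y + 4)) →
    ContinuousOn (fun p : ℝ × ℝ => m p.1 p.2) (Icc (x - 4) (x + 4) ×ˢ Icc (y - 4) (y + 4)) →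
    (∀ T ∈ Icc (y - 4) (y + 4), m (x + 4) T - m (x - 4) T = ∫ σ in (x - 4)..(x + 4), f σ T) →
    (∀ σ ∈ Icc (x - 4) (x + 4),
      m σ (y + 4) - m σ (y - 4) = Complex.I * ∫ T in (y - 4)..(y + 4), f σ T) →
    (∀ t ∈ Icc (-4 : ℝ) 4, ‖m (x + t) (y - 4) + 1 / ((t : ℂ) - 4 * Complex.I)‖ ≤ 1 / 100 ∧
      ‖m (x + t) (y + 4) + 1 / ((t : ℂ) + 4 * Complex.I)‖ ≤ 1 / 100 ∧
      ‖m (x + 4) (y + t) + 1 / (4 + (t : ℂ) * Complex.I)‖ ≤ 1 / 100 ∧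
      ‖m (x - 4) (y + t) + 1 / (-4 + (t : ℂ) * Complex.I)‖ ≤ 1 / 100) → False

/-! ### Part NX: no exit (local contradiction at the extremal point) -/

def S_NX : Prop :=
  ∀ (ν : ℝ) [Fact (1 ≤ ν)] (V : ℝ → ℝ → WA ν ℂ), IsQP V →
    ∀ σ1 T1 : ℝ, 1000 ≤ σ1 → 100 ≤ T1 → ‖V σ1 T1 0‖ = 1 / 10 →
    (∀ T ∈ Icc (T1 - 20) (T1 + 20), ‖V 0 T‖ ≤ 1) →
    (∀ T ∈ Icc (T1 - 20) (T1 + 20), ∀ σ : ℝ, 0 ≤ σ → σ < σ1 - |T - T1| → ‖V σ T 0‖ < 1 / 10) →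
    False

/-! ### Part FE: final estimate on a good horizontal -/

def S_FE : Prop :=
  ∀ (ν : ℝ) [Fact (1 ≤ ν)] (V : ℝ → ℝ → WA ν ℂ), IsQP V →
    ∀ (T C : ℝ) (a : ℂ), 0 ≤ T → (∀ σ : ℝ, 0 ≤ σ → ‖V σ T 0‖ ≤ 1 / 10) → ‖V 0 T‖ ≤ 1 / 10 →
    (∀ σ : ℝ, 0 ≤ σ → ‖V σ T‖ ≤ C * Real.exp (-30 * σ)) →
    Tendsto (fun σ : ℝ => (Real.exp (om 1 * σ) : ℂ) * V σ T 1) atTop (𝓝 a) →
    ‖a‖ ≤ 2 * ‖V 0 T‖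

/-! ### Part R: rigidity (assembly of LC, RC, RA, SEL, NX, FE) -/

def S_R : Prop :=
  ∀ (ν : ℝ) [Fact (1 ≤ ν)] (V : ℝ → ℝ → WA ν ℂ), IsQP V →
    ∀ (C : ℝ) (a : ℂ), (∀ σ : ℝ, 0 ≤ σ → ‖V σ 0‖ ≤ C * Real.exp (-30 * σ)) →
    Tendsto (fun T : ℝ => ‖V 0 T‖) atTop (𝓝 0) →
    Tendsto (fun σ : ℝ => (Real.exp (om 1 * σ) : ℂ) * V σ 0 1) atTop (𝓝 a) → a = 0

/-! ### Part C: construction of the real decaying heat solution -/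

/-- `W = e^{30σ} U` solves the Lyapunov–Perron equation with data `ε` at `k = ±1`. -/
def IsLP (ρ : ℝ) [Fact (1 ≤ ρ)] (ε : ℝ) (W : WA ρ (BoundedContinuousFunction ℝ ℝ)) : Prop :=
  (∀ k : ℤ, k ≠ 0 → ∀ s : ℝ, 0 ≤ s → W k s = Real.exp (30 * s) *
      (Real.exp (-(om k) * s) * (if k = 1 ∨ k = -1 then ε else 0)
        + ∫ τ in (0:ℝ)..s, Real.exp (-(om k) * (s - τ)) * (Real.exp (-60 * τ) * (W * W) k τ))) ∧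
  (∀ s : ℝ, 0 ≤ s → W 0 s = -(Real.exp (30 * s) *
      ∫ τ in Ioi s, Real.exp (-60 * τ) * (W * W) 0 τ))

/-- fixed point -/
def S_C1 : Prop :=
  ∀ (ρ : ℝ) [Fact (1 ≤ ρ)] (ε : ℝ), 0 < ε → ε * ρ ≤ 1 / 4 →
    ∃ W : WA ρ (BoundedContinuousFunction ℝ ℝ), ‖W‖ ≤ 4 * (ε * ρ) ∧
      (∀ k : ℤ, W (-k) = W k) ∧ IsLP ρ ε W

/-- a solution of the heat equation on `[0, ∞)` -/
structure IsHeat {ν : ℝ} [Fact (1 ≤ ν)] (U : ℝ → WA ν ℂ) : Prop where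
  cont : ContinuousOn U (Ici 0)
  eqn : ∀ σ : ℝ, 0 ≤ σ → ∀ k : ℤ,
    HasDerivWithinAt (fun x => U x k) (-((om k : ℂ) * U σ k) + (U σ * U σ) k) (Ici σ) σ

/-- a solution of the Schrödinger equation on `[0, ∞)` -/
structure IsSchr {ν : ℝ} [Fact (1 ≤ ν)] (U : ℝ → WA ν ℂ) : Prop where
  cont : ContinuousOn U (Ici 0)
  eqn : ∀ T : ℝ, 0 ≤ T → ∀ k : ℤ,
    HasDerivWithinAt (fun y => U y k)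
      (Complex.I * (-((om k : ℂ) * U T k) + (U T * U T) k)) (Ici T) T

def S_C : Prop :=
  ∀ (ρ : ℝ) [Fact (1 ≤ ρ)] (ε : ℝ), 0 < ε → ∃ (U : ℝ → WA ρ ℂ) (a : ℂ), a ≠ 0 ∧ IsHeat U ∧
    (∀ σ : ℝ, 0 ≤ σ → ‖U σ‖ ≤ ε * Real.exp (-30 * σ)) ∧
    (∀ σ : ℝ, 0 ≤ σ → ∀ k : ℤ, (U σ k).im = 0 ∧ U σ (-k) = U σ k) ∧
    Tendsto (fun σ : ℝ => (Real.exp (om 1 * σ) : ℂ) * U σ 1) atTop (𝓝 a)

/-! ### Part B: Cauchy–Riemann equations for the family of Schrödinger solutions -/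

/-- joint continuity -/
def S_B0 : Prop :=
  ∀ (ν : ℝ) [Fact (1 ≤ ν)] (V : ℝ → ℝ → WA ν ℂ),
    ContinuousOn (fun σ => V σ 0) (Ici 0) → (∀ σ : ℝ, 0 ≤ σ → IsSchr (V σ)) →
    ContinuousOn (fun p : ℝ × ℝ => V p.1 p.2) (Ici 0 ×ˢ Ici 0)

/-- first order expansion at time `0` for a datum in the smaller space `WA ρ`, `ρ ≥ 2ν`, for the
equation `U_k' = c (-ω_k U_k + (U²)_k)`, `Re c ≥ 0`, `‖c‖ = 1`. -/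
def S_B1 : Prop :=
  ∀ (ν ρ : ℝ) [Fact (1 ≤ ν)] [Fact (1 ≤ ρ)], 2 * ν ≤ ρ →
    ∀ (c : ℂ) (L : ℝ) (U : ℝ → WA ν ℂ) (b : WA ρ ℂ), 0 < L → 0 ≤ c.re → ‖c‖ = 1 →
    ContinuousOn U (Icc 0 L) →
    (∀ t ∈ Ico 0 L, ∀ k : ℤ, HasDerivWithinAt (fun s => U s k)
      (c * (-((om k : ℂ) * U t k) + (U t * U t) k)) (Ici t) t) →
    (∀ k : ℤ, U 0 k = b k) →
    ∃ G : WA ν ℂ, (∀ k : ℤ, G k = -((om k : ℂ) * U 0 k) + (U 0 * U 0) k) ∧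
      Tendsto (fun h : ℝ => h⁻¹ * ‖U h - U 0 - (h : ℂ) • (c • G)‖) (𝓝[>] 0) (𝓝 0)

def S_B : Prop :=
  ∀ (ν ρ : ℝ) [Fact (1 ≤ ν)] [Fact (1 ≤ ρ)], 2 * ν ≤ ρ →
    ∀ (U : ℝ → WA ρ ℂ) (V : ℝ → ℝ → WA ν ℂ), IsHeat U → (∀ σ : ℝ, 0 ≤ σ → IsSchr (V σ)) →
    (∀ σ : ℝ, 0 ≤ σ → ∀ k : ℤ, V σ 0 k = U σ k) → IsQP V

/-! ### Part BR: bridge to functions on the circle -/

/-- convolution theorem -/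
def S_BR1 : Prop :=
  ∀ f : C(UnitAddCircle, ℂ), Summable (fun k : ℤ => ‖fourierCoeff f k‖) →
    ∀ k : ℤ, fourierCoeff (f * f : C(UnitAddCircle, ℂ)) k
      = ∑' j : ℤ, fourierCoeff f j * fourierCoeff f (k - j)

/-- synthesis of a real function -/
def S_BR2 : Prop :=
  ∀ (ν : ℝ) [Fact (1 ≤ ν)] (b : WA ν ℂ), (∀ k : ℤ, (b k).im = 0 ∧ b (-k) = b k) →
    ∃ f : C(UnitAddCircle, ℂ), (∀ k : ℤ, fourierCoeff f k = b k) ∧ ∀ x, (f x).im = 0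

/-! ### The final theorem -/

/-- `f ∈ A_ν(𝕋)` -/
def InA (ν : ℝ) (f : C(UnitAddCircle, ℂ)) : Prop :=
  Summable fun k : ℤ => ‖fourierCoeff f k‖ * ν ^ k.natAbs

/-- the norm of `A_ν(𝕋)` -/
def nrmA (ν : ℝ) (f : C(UnitAddCircle, ℂ)) : ℝ :=
  ∑' k : ℤ, ‖fourierCoeff f k‖ * ν ^ k.natAbs

/-- `u` solves `-i u_t = u_xx + u²` on the time interval `J`, as a continuous curve in `A_ν(𝕋)`;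
the equation holds for every Fourier coefficient. -/
structure IsSol (ν : ℝ) (J : Set ℝ) (u : ℝ → C(UnitAddCircle, ℂ)) : Prop where
  mem : ∀ t ∈ J, InA ν (u t)
  cont : ∀ t ∈ J, Tendsto (fun s => nrmA ν (u s - u t)) (𝓝[J] t) (𝓝 0)
  eqn : ∀ t ∈ J, ∀ k : ℤ, HasDerivWithinAt (fun s => fourierCoeff (u s) k)
    (Complex.I * (-(4 * (Real.pi : ℂ) ^ 2 * (k : ℂ) ^ 2 * fourierCoeff (u t) k)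
      + fourierCoeff (u t * u t : C(UnitAddCircle, ℂ)) k)) J t

/-- forward part: for all `ν ≥ 1` and `ε > 0` some real datum of norm `< ε` has no forward solution
on `[0, ∞)` tending to `0`. -/
def S_FW : Prop :=
  ∀ ν : ℝ, 1 ≤ ν → ∀ ε : ℝ, 0 < ε → ∃ u0 : C(UnitAddCircle, ℂ), (∀ x, (u0 x).im = 0) ∧
    InA ν u0 ∧ nrmA ν u0 < ε ∧
    ¬ ∃ u : ℝ → C(UnitAddCircle, ℂ), IsSol ν (Ici 0) u ∧ u 0 = u0 ∧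
      Tendsto (fun t => nrmA ν (u t)) atTop (𝓝 0)

/-- time reversal: `u(-t)` conjugated -/
def S_TR : Prop :=
  ∀ (ν : ℝ), 1 ≤ ν → ∀ u : ℝ → C(UnitAddCircle, ℂ), IsSol ν (Iic 0) u →
    IsSol ν (Ici 0) (fun t => star (u (-t))) ∧
      (Tendsto (fun t => nrmA ν (u t)) atBot (𝓝 0) →
        Tendsto (fun t => nrmA ν (star (u (-t)))) atTop (𝓝 0))

def S_Main : Prop :=
  ∀ ν : ℝ, 1 ≤ ν → ∀ ε : ℝ, 0 < ε → ∃ u0 : C(UnitAddCircle, ℂ), (∀ x, (u0 x).im = 0) ∧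
    InA ν u0 ∧ 0 < nrmA ν u0 ∧ nrmA ν u0 < ε ∧
    (¬ ∃ u : ℝ → C(UnitAddCircle, ℂ), IsSol ν (Ici 0) u ∧ u 0 = u0 ∧
      Tendsto (fun t => nrmA ν (u t)) atTop (𝓝 0)) ∧
    (¬ ∃ u : ℝ → C(UnitAddCircle, ℂ), IsSol ν (Iic 0) u ∧ u 0 = u0 ∧
      Tendsto (fun t => nrmA ν (u t)) atBot (𝓝 0))

end

end H23.QN
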