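import Pool.Agent.H23.QN.Defs

namespace H23.QN

open Filter Topology Set

theorem BT : S_BT := by
  intro f L B hL hf h0 hstep t1 ht1
  by_contra hB
  push Not at hB
  set S : Set ℝ := Icc 0 L ∩ f ⁻¹' (Ici B) with hS
  have hSclosed : IsClosed S := hf.preimage_isClosed_of_isClosed isClosed_Icc isClosed_Ici
  have hSne : S.Nonempty := ⟨t1, ht1, hB⟩
  have hSbd : BddBelow S := ⟨0, fun x hx => hx.1.1⟩
  have ht0 : sInf S ∈ S := hSclosed.csInf_mem hSne hSbd
  set t0 := sInf S with ht0def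
  have hlt : ∀ τ ∈ Icc 0 t0, τ < t0 → f τ < B := by
    intro τ hτ hlt
    by_contra hh
    push Not at hh
    have : τ ∈ S := ⟨⟨hτ.1, hτ.2.trans ht0.1.2⟩, hh⟩
    exact absurd (csInf_le hSbd this) (not_le.mpr hlt)
  have hle : f t0 ≤ B := by
    by_contra hh
    push Not at hh
    have hcont : ContinuousOn f (Icc 0 t0) := hf.mono (Icc_subset_Icc_right ht0.1.2)
    have := intermediate_value_Icc ht0.1.1 hcont
    obtain ⟨τ, hτ, hτB⟩ := this ⟨h0.le, hh.le⟩
    have hτS : τ ∈ S := ⟨⟨hτ.1, hτ.2.trans ht0.1.2⟩, hτB.ge⟩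
    have h1 : t0 ≤ τ := csInf_le hSbd hτS
    have h2 : τ = t0 := le_antisymm hτ.2 h1
    rw [h2] at hτB
    exact absurd hτB hh.ne'
  have h3 : f t0 < B := hstep t0 ht0.1 (fun τ hτ => by
    rcases lt_or_eq_of_le hτ.2 with h | h
    · exact (hlt τ hτ h).le
    · rw [h]; exact hle)
  exact absurd ht0.2 (not_le.mpr h3)

end H23.QN
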