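import Pool.Agent.H23.QN.AuxQP

namespace H23.QN

open Filter Topology Set MeasureTheory

noncomputable section

variable {ρ : ℝ} [Fact (1 ≤ ρ)]

lemma C_bcf_le (W : WA ρ (BoundedContinuousFunction ℝ ℝ)) (k : ℤ) (s : ℝ) :
    ‖W k s‖ ≤ ‖W k‖ := (W k).norm_coe_le_norm s

lemma C_summ (W : WA ρ (BoundedContinuousFunction ℝ ℝ)) (s : ℝ) :
    Summable fun k : ℤ => ‖((Real.exp (-30 * s) * W k s : ℝ) : ℂ)‖ * ρ ^ k.natAbs := by
  refine Summable.of_nonneg_of_le
    (fun k => mul_nonneg (norm_nonneg _) (wt_pos ρ k).le) (fun k => ?_)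
    ((WA.summ W).mul_left (Real.exp (-30 * s)))
  rw [Complex.norm_real, norm_mul, Real.norm_of_nonneg (Real.exp_pos _).le, mul_assoc]
  exact mul_le_mul_of_nonneg_left
    (mul_le_mul_of_nonneg_right (C_bcf_le W k s) (wt_pos ρ k).le) (Real.exp_pos _).le

/-- the curve `U s = e^{-30 s} W(s)` -/
def Cu (W : WA ρ (BoundedContinuousFunction ℝ ℝ)) (s : ℝ) : WA ρ ℂ :=
  WA.mk (fun k => ((Real.exp (-30 * s) * W k s : ℝ) : ℂ)) (C_summ W s)

lemma Cu_apply (W : WA ρ (BoundedContinuousFunction ℝ ℝ)) (s : ℝ) (k : ℤ) :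
    Cu W s k = ((Real.exp (-30 * s) * W k s : ℝ) : ℂ) := rfl

lemma Cu_norm (W : WA ρ (BoundedContinuousFunction ℝ ℝ)) (s : ℝ) :
    ‖Cu W s‖ ≤ Real.exp (-30 * s) * ‖W‖ := by
  rw [WA.norm_def, WA.norm_def, ← tsum_mul_left]
  refine (WA.summ (Cu W s)).tsum_le_tsum (fun k => ?_) ((WA.summ W).mul_left _)
  rw [Cu_apply, Complex.norm_real, norm_mul, Real.norm_of_nonneg (Real.exp_pos _).le, mul_assoc]
  exact mul_le_mul_of_nonneg_left
    (mul_le_mul_of_nonneg_right (C_bcf_le W k s) (wt_pos ρ k).le) (Real.exp_pos _).le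

lemma Cu_cont (W : WA ρ (BoundedContinuousFunction ℝ ℝ)) : Continuous (Cu W) := by
  rw [continuous_iff_continuousAt]
  intro s0
  rw [ContinuousAt, tendsto_iff_norm_sub_tendsto_zero]
  have h0 : (0:ℝ) = ∑' k : ℤ, (0:ℝ) := by simp
  rw [h0]
  simp only [WA.norm_def]
  refine tendsto_tsum_of_dominated_convergence
    (bound := fun k => (2 * Real.exp (-30 * (s0 - 1))) * (‖W k‖ * ρ ^ k.natAbs))
    ((WA.summ W).mul_left _) (fun k => ?_) ?_
  · have h1 : Tendsto (fun s => Cu W s k - Cu W s0 k) (𝓝 s0) (𝓝 (Cu W s0 k - Cu W s0 k)) := by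
      refine Tendsto.sub_const ?_ _
      simp only [Cu_apply]
      have : Continuous fun s : ℝ => ((Real.exp (-30 * s) * W k s : ℝ) : ℂ) := by fun_prop
      exact this.tendsto s0
    rw [sub_self] at h1
    have h2 := h1.norm.mul_const (ρ ^ k.natAbs)
    simpa using h2
  · have : ∀ᶠ s in 𝓝 s0, s0 - 1 < s := eventually_gt_nhds (by linarith)
    filter_upwards [this] with s hs k
    rw [Real.norm_of_nonneg (mul_nonneg (norm_nonneg _) (wt_pos ρ k).le), ← mul_assoc]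
    refine mul_le_mul_of_nonneg_right ?_ (wt_pos ρ k).le
    rw [WA.sub_apply]
    have hA : ∀ r : ℝ, s0 - 1 ≤ r → ‖Cu W r k‖ ≤ Real.exp (-30 * (s0 - 1)) * ‖W k‖ := by
      intro r hr
      rw [Cu_apply, Complex.norm_real, norm_mul, Real.norm_of_nonneg (Real.exp_pos _).le]
      exact mul_le_mul (Real.exp_le_exp.mpr (by linarith)) (C_bcf_le W k r) (norm_nonneg _)
        (Real.exp_pos _).le
    have h3 := hA s hs.le
    have h4 := hA s0 (by linarith)
    refine (norm_sub_le _ _).trans ?_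
    linarith

lemma C_eval_mul (W : WA ρ (BoundedContinuousFunction ℝ ℝ)) (k : ℤ) (s : ℝ) :
    (W * W) k s = ∑' j, W j s * W (k - j) s := by
  rw [WA.mul_apply]
  have h := (BoundedContinuousFunction.evalCLM ℝ s).map_tsum (WA.summ_conv W W k)
  exact h

lemma Cu_sq (W : WA ρ (BoundedContinuousFunction ℝ ℝ)) (s : ℝ) (k : ℤ) :
    (Cu W s * Cu W s) k = ((Real.exp (-60 * s) * (W * W) k s : ℝ) : ℂ) := by
  rw [WA.mul_apply, C_eval_mul, ← tsum_mul_left, Complex.ofReal_tsum]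
  refine tsum_congr (fun j => ?_)
  rw [Cu_apply, Cu_apply, ← Complex.ofReal_mul]
  congr 1
  have : Real.exp (-60 * s) = Real.exp (-30 * s) * Real.exp (-30 * s) := by
    rw [← Real.exp_add]; ring_nf
  rw [this]; ring

lemma C_mulbd (W : WA ρ (BoundedContinuousFunction ℝ ℝ)) (k : ℤ) (s : ℝ) :
    ‖(W * W) k s‖ ≤ ‖W‖ ^ 2 := by
  rw [pow_two]
  exact ((C_bcf_le (W * W) k s).trans (WA.coef_le _ k)).trans (WA.norm_mul_le' _ _)

/-- the source -/
def Cf (W : WA ρ (BoundedContinuousFunction ℝ ℝ)) (k : ℤ) (s : ℝ) : ℝ :=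
  Real.exp (-60 * s) * (W * W) k s

lemma Cf_cont (W : WA ρ (BoundedContinuousFunction ℝ ℝ)) (k : ℤ) : Continuous (Cf W k) := by
  unfold Cf; fun_prop

lemma C_exp_int (W : WA ρ (BoundedContinuousFunction ℝ ℝ)) (k : ℤ) (w l : ℝ) (hl : l < 0)
    (hwl : w - 60 ≤ l) :
    IntegrableOn (fun t => Real.exp (w * t) * Cf W k t) (Ioi 0) ∧
      ∀ t : ℝ, 0 ≤ t → ‖Real.exp (w * t) * Cf W k t‖ ≤ ‖W‖ ^ 2 * Real.exp (l * t) := by
  have hb : ∀ t : ℝ, 0 ≤ t → ‖Real.exp (w * t) * Cf W k t‖ ≤ ‖W‖ ^ 2 * Real.exp (l * t) := by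
    intro t ht
    unfold Cf
    rw [norm_mul, norm_mul, Real.norm_of_nonneg (Real.exp_pos _).le,
      Real.norm_of_nonneg (Real.exp_pos _).le, ← mul_assoc, ← Real.exp_add]
    calc _ ≤ Real.exp (l * t) * ‖W‖ ^ 2 :=
          mul_le_mul (Real.exp_le_exp.mpr (by nlinarith)) (C_mulbd W k t) (norm_nonneg _)
            (Real.exp_pos _).le
      _ = _ := by ring
  refine ⟨?_, hb⟩
  have hg : IntegrableOn (fun t : ℝ => ‖W‖ ^ 2 * Real.exp (l * t)) (Ioi 0) :=
    (integrableOn_exp_mul_Ioi hl 0).const_mul _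
  refine Integrable.mono' hg ?_ ?_
  · have : Continuous fun t : ℝ => Real.exp (w * t) * Cf W k t := by
      have := Cf_cont W k
      fun_prop
    exact this.aestronglyMeasurable
  · filter_upwards [ae_restrict_mem measurableSet_Ioi] with t ht
    exact hb t (le_of_lt ht)

/-- explicit formula for `k ≠ 0` -/
lemma C_formula {ε : ℝ} {W : WA ρ (BoundedContinuousFunction ℝ ℝ)} (hW : IsLP ρ ε W) {k : ℤ}
    (hk : k ≠ 0) (s : ℝ) (hs : 0 ≤ s) :
    Real.exp (-30 * s) * W k s = Real.exp (-(om k) * s) * ((if k = 1 ∨ k = -1 then ε else 0)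
      + ∫ τ in (0:ℝ)..s, Real.exp (om k * τ) * Cf W k τ) := by
  rw [hW.1 k hk s hs, ← mul_assoc, ← Real.exp_add]
  have h0 : -30 * s + 30 * s = 0 := by ring
  rw [h0, Real.exp_zero, one_mul, mul_add, ← intervalIntegral.integral_const_mul]
  congr 1
  refine intervalIntegral.integral_congr (fun τ _ => ?_)
  simp only [Cf]
  rw [← mul_assoc (Real.exp (-(om k) * s)), ← Real.exp_add]
  congr 2
  ring

lemma C_deriv_ne {ε : ℝ} {W : WA ρ (BoundedContinuousFunction ℝ ℝ)} (hW : IsLP ρ ε W) {k : ℤ}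
    (hk : k ≠ 0) (s : ℝ) (hs : 0 ≤ s) :
    HasDerivWithinAt (fun x => Real.exp (-30 * x) * W k x)
      (-(om k * (Real.exp (-30 * s) * W k s)) + Cf W k s) (Ici s) s := by
  have hf := Cf_cont W k
  have hgc : Continuous fun τ => Real.exp (om k * τ) * Cf W k τ := by fun_prop
  have h1 : HasDerivAt (fun x : ℝ => ∫ τ in (0:ℝ)..x, Real.exp (om k * τ) * Cf W k τ)
      (Real.exp (om k * s) * Cf W k s) s := (hgc.integral_hasStrictDerivAt 0 s).hasDerivAt
  have h2 : HasDerivAt (fun x : ℝ => Real.exp (-(om k) * x)) (Real.exp (-(om k) * s) * (-(om k))) s := by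
    have h3 : HasDerivAt (fun x : ℝ => -(om k) * x) (-(om k)) s := by
      simpa using (hasDerivAt_id s).const_mul (-(om k))
    exact h3.exp
  have h4 := h2.mul (h1.const_add (if k = 1 ∨ k = -1 then ε else 0))
  have h5 : HasDerivWithinAt (fun x => Real.exp (-30 * x) * W k x)
      (Real.exp (-(om k) * s) * (-(om k)) * ((if k = 1 ∨ k = -1 then ε else 0)
      + ∫ τ in (0:ℝ)..s, Real.exp (om k * τ) * Cf W k τ)
      + Real.exp (-(om k) * s) * (Real.exp (om k * s) * Cf W k s)) (Ici s) s := by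
    refine (h4.hasDerivWithinAt (s := Ici s)).congr (fun x hx => ?_) ?_
    · rw [C_formula hW hk x (hs.trans hx)]; rfl
    · rw [C_formula hW hk s hs]; rfl
  refine h5.congr_deriv ?_
  rw [C_formula hW hk s hs, ← mul_assoc (Real.exp (-(om k) * s)) (Real.exp (om k * s)),
    ← Real.exp_add]
  have h6 : -(om k) * s + om k * s = 0 := by ring
  rw [h6, Real.exp_zero]
  ring

lemma C_deriv_zero {ε : ℝ} {W : WA ρ (BoundedContinuousFunction ℝ ℝ)} (hW : IsLP ρ ε W)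
    (s : ℝ) (hs : 0 ≤ s) :
    HasDerivWithinAt (fun x => Real.exp (-30 * x) * W 0 x) (Cf W 0 s) (Ici s) s := by
  have hf := Cf_cont W 0
  have hint : IntegrableOn (Cf W 0) (Ioi 0) := by
    have := (C_exp_int W 0 0 (-60) (by norm_num) (by norm_num)).1
    simpa using this
  have h1 : HasDerivAt (fun x : ℝ => ∫ τ in (0:ℝ)..x, Cf W 0 τ)
      (Cf W 0 s) s := (hf.integral_hasStrictDerivAt 0 s).hasDerivAt
  have h2 := h1.sub_const (∫ τ in Ioi (0:ℝ), Cf W 0 τ)
  have hform : ∀ x : ℝ, 0 ≤ x → Real.exp (-30 * x) * W 0 x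
      = (∫ τ in (0:ℝ)..x, Cf W 0 τ) - ∫ τ in Ioi (0:ℝ), Cf W 0 τ := by
    intro x hx
    rw [hW.2 x hx]
    have h3 := intervalIntegral.integral_interval_add_Ioi (μ := volume) hint
      (hint.mono_set (Ioi_subset_Ioi hx))
    rw [← h3]
    have h4 : Real.exp (-30 * x) * Real.exp (30 * x) = 1 := by
      rw [← Real.exp_add]; ring_nf; simp
    have h5 : (∫ τ in Ioi x, Real.exp (-60 * τ) * (W * W) 0 τ) = ∫ τ in Ioi x, Cf W 0 τ := rfl
    rw [h5, mul_neg, ← mul_assoc, h4]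
    ring
  refine (h2.hasDerivWithinAt (s := Ici s)).congr (fun x hx => ?_) ?_
  · exact hform x (hs.trans hx)
  · exact hform s hs

theorem C (hC1 : S_C1) : S_C := by
  intro ρ hρ ε hε
  have hρ1 : 1 ≤ ρ := hρ.out
  have hρ0 : 0 < ρ := by linarith
  set e : ℝ := min (ε / (4 * ρ)) (1 / (4 * ρ ^ 2)) with he
  have he0 : 0 < e := by rw [he]; positivity
  have he1 : 4 * (e * ρ) ≤ ε := by
    have := min_le_left (ε / (4 * ρ)) (1 / (4 * ρ ^ 2))
    rw [← he] at this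
    calc 4 * (e * ρ) ≤ 4 * (ε / (4 * ρ) * ρ) := by gcongr
      _ = ε := by field_simp
  have he2 : e * ρ ^ 2 ≤ 1 / 4 := by
    have := min_le_right (ε / (4 * ρ)) (1 / (4 * ρ ^ 2))
    rw [← he] at this
    calc e * ρ ^ 2 ≤ 1 / (4 * ρ ^ 2) * ρ ^ 2 := by gcongr
      _ = 1 / 4 := by field_simp
  have he3 : e * ρ ≤ 1 / 4 := by
    refine le_trans ?_ he2
    have : ρ ≤ ρ ^ 2 := by nlinarith
    exact mul_le_mul_of_nonneg_left this he0.le
  obtain ⟨W, hWn, hWs, hW⟩ := hC1 ρ e he0 he3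
  have hom : om 1 - 60 ≤ -20 := by linarith [om_one_lt]
  obtain ⟨hint, hbd⟩ := C_exp_int W 1 (om 1) (-20) (by norm_num) hom
  set J : ℝ := ∫ τ in Ioi (0:ℝ), Real.exp (om 1 * τ) * Cf W 1 τ with hJ
  have hJb : |J| ≤ ‖W‖ ^ 2 / 20 := by
    have hg : IntegrableOn (fun t : ℝ => ‖W‖ ^ 2 * Real.exp (-20 * t)) (Ioi 0) :=
      (integrableOn_exp_mul_Ioi (by norm_num) 0).const_mul _
    have h1 := MeasureTheory.norm_integral_le_of_norm_le hg
      (f := fun t => Real.exp (om 1 * t) * Cf W 1 t) (by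
        filter_upwards [ae_restrict_mem measurableSet_Ioi] with t ht
        exact hbd t (le_of_lt ht))
    rw [← hJ, MeasureTheory.integral_const_mul, integral_exp_mul_Ioi (by norm_num) 0] at h1
    rw [Real.norm_eq_abs] at h1
    refine h1.trans (le_of_eq ?_)
    simp
    ring
  have hWn0 : 0 ≤ ‖W‖ := norm_nonneg _
  have hJe : |J| < e := by
    refine lt_of_le_of_lt hJb ?_
    have h1 : ‖W‖ ^ 2 ≤ (4 * (e * ρ)) ^ 2 := pow_le_pow_left₀ hWn0 hWn 2
    have h2 : (4 * (e * ρ)) ^ 2 = 16 * e * (e * ρ ^ 2) := by ring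
    rw [h2] at h1
    nlinarith
  refine ⟨Cu W, ((e + J : ℝ) : ℂ), ?_, ⟨(Cu_cont W).continuousOn, ?_⟩, ?_, ?_, ?_⟩
  · rw [Ne, Complex.ofReal_eq_zero]
    have := neg_abs_le J
    intro h
    linarith
  · intro σ hσ k
    rw [Cu_sq]
    by_cases hk : k = 0
    · subst hk
      have h1 := (C_deriv_zero hW σ hσ).ofReal_comp
      have h2 : (-((om 0 : ℂ) * Cu W σ 0) + ((Real.exp (-60 * σ) * (W * W) 0 σ : ℝ) : ℂ))
          = ((Cf W 0 σ : ℝ) : ℂ) := by
        rw [om_zero]; simp [Cf]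
      rw [h2]
      exact h1
    · have h1 := (C_deriv_ne hW hk σ hσ).ofReal_comp
      have h2 : (-((om k : ℂ) * Cu W σ k) + ((Real.exp (-60 * σ) * (W * W) k σ : ℝ) : ℂ))
          = ((-(om k * (Real.exp (-30 * σ) * W k σ)) + Cf W k σ : ℝ) : ℂ) := by
        rw [Cu_apply]; simp [Cf]
      rw [h2]
      exact h1
  · intro σ _
    refine (Cu_norm W σ).trans ?_
    rw [mul_comm]
    exact mul_le_mul_of_nonneg_right (hWn.trans he1) (Real.exp_pos _).le
  · intro σ _ k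
    refine ⟨by rw [Cu_apply]; exact Complex.ofReal_im _, ?_⟩
    rw [Cu_apply, Cu_apply, hWs]
  · have h1 : Tendsto (fun σ : ℝ => e + ∫ τ in (0:ℝ)..σ, Real.exp (om 1 * τ) * Cf W 1 τ) atTop
        (𝓝 (e + J)) :=
      (intervalIntegral_tendsto_integral_Ioi 0 hint tendsto_id).const_add e
    have h2 := (Complex.continuous_ofReal.tendsto (e + J)).comp h1
    refine h2.congr' ?_
    filter_upwards [eventually_ge_atTop (0:ℝ)] with σ hσ
    rw [Cu_apply, C_formula hW one_ne_zero σ hσ, ← Complex.ofReal_mul, ← mul_assoc, ← Real.exp_add]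
    have h3 : om 1 * σ + -(om 1) * σ = 0 := by ring
    rw [h3, Real.exp_zero, one_mul]
    simp

end

end H23.QN
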