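import Pool.Agent.H23.QN.Defs

namespace H23.QN

open Filter Topology Set MeasureTheory

lemma swap_box {f : ℝ → ℝ → ℂ} {a1 b1 a2 b2 : ℝ} (h1 : a1 ≤ b1) (h2 : a2 ≤ b2)
    (hf : ContinuousOn (fun p : ℝ × ℝ => f p.1 p.2) (Icc a1 b1 ×ˢ Icc a2 b2)) :
    ∫ σ in a1..b1, ∫ T in a2..b2, f σ T = ∫ T in a2..b2, ∫ σ in a1..b1, f σ T := by
  have hcomp : IsCompact (Icc a1 b1 ×ˢ Icc a2 b2) := isCompact_Icc.prod isCompact_Icc
  have hint : IntegrableOn (fun p : ℝ × ℝ => f p.1 p.2) (Icc a1 b1 ×ˢ Icc a2 b2)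
      (volume.prod volume) := hf.integrableOn_compact hcomp
  have hint2 : IntegrableOn (fun p : ℝ × ℝ => f p.1 p.2) (Ioc a1 b1 ×ˢ Ioc a2 b2)
      (volume.prod volume) := hint.mono_set (prod_mono Ioc_subset_Icc_self Ioc_subset_Icc_self)
  have hint3 : Integrable (Function.uncurry f)
      ((volume.restrict (Ioc a1 b1)).prod (volume.restrict (Ioc a2 b2))) := by
    rw [Measure.prod_restrict]; exact hint2
  have := integral_integral_swap hint3
  simp only [intervalIntegral.integral_of_le h1, intervalIntegral.integral_of_le h2]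
  exact this

theorem CT : S_CT := by
  intro m f x y hf hm hh hv hb
  -- the two integrals
  have h1 : x - 4 ≤ x + 4 := by linarith
  have h2 : y - 4 ≤ y + 4 := by linarith
  have hA : ∫ σ in (x - 4)..(x + 4), (m σ (y + 4) - m σ (y - 4))
      = Complex.I * ∫ σ in (x - 4)..(x + 4), ∫ T in (y - 4)..(y + 4), f σ T := by
    rw [← intervalIntegral.integral_const_mul]
    refine intervalIntegral.integral_congr (fun σ hσ => ?_)
    rw [uIcc_of_le h1] at hσ
    exact hv σ hσ
  have hB : ∫ T in (y - 4)..(y + 4), (m (x + 4) T - m (x - 4) T)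
      = ∫ T in (y - 4)..(y + 4), ∫ σ in (x - 4)..(x + 4), f σ T := by
    refine intervalIntegral.integral_congr (fun T hT => ?_)
    rw [uIcc_of_le h2] at hT
    exact hh T hT
  rw [swap_box h1 h2 hf, ← hB] at hA
  -- shift the variables
  have hA' : ∫ t in (-4:ℝ)..4, (m (x + t) (y + 4) - m (x + t) (y - 4))
      = ∫ σ in (x - 4)..(x + 4), (m σ (y + 4) - m σ (y - 4)) := by
    have := intervalIntegral.integral_comp_add_left (a := -4) (b := 4)
      (fun σ => m σ (y + 4) - m σ (y - 4)) x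
    rw [this]; rfl
  have hB' : ∫ t in (-4:ℝ)..4, (m (x + 4) (y + t) - m (x - 4) (y + t))
      = ∫ T in (y - 4)..(y + 4), (m (x + 4) T - m (x - 4) T) := by
    have := intervalIntegral.integral_comp_add_left (a := -4) (b := 4)
      (fun T => m (x + 4) T - m (x - 4) T) y
    rw [this]; rfl
  rw [← hA', ← hB'] at hA
  -- continuity on the boundary
  have hcomp : ∀ g : ℝ → ℝ × ℝ, ContinuousOn g (Icc (-4) 4) →
      (∀ t ∈ Icc (-4:ℝ) 4, g t ∈ (Icc (x - 4) (x + 4) ×ˢ Icc (y - 4) (y + 4))) →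
      ContinuousOn (fun t => m (g t).1 (g t).2) (Icc (-4) 4) := by
    intro g hg hmaps
    exact ContinuousOn.comp (g := fun p : ℝ × ℝ => m p.1 p.2) hm hg hmaps
  have c1 : ContinuousOn (fun t => m (x + t) (y + 4)) (Icc (-4:ℝ) 4) :=
    hcomp (fun t => (x + t, y + 4)) (by fun_prop)
      (fun t ht => ⟨⟨by simp only; linarith [ht.1], by simp only; linarith [ht.2]⟩,
        ⟨by simp only; linarith, le_rfl⟩⟩)
  have c2 : ContinuousOn (fun t => m (x + t) (y - 4)) (Icc (-4:ℝ) 4) :=
    hcomp (fun t => (x + t, y - 4)) (by fun_prop)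
      (fun t ht => ⟨⟨by simp only; linarith [ht.1], by simp only; linarith [ht.2]⟩,
        ⟨le_rfl, by simp only; linarith⟩⟩)
  have c3 : ContinuousOn (fun t => m (x + 4) (y + t)) (Icc (-4:ℝ) 4) :=
    hcomp (fun t => (x + 4, y + t)) (by fun_prop)
      (fun t ht => ⟨⟨by simp only; linarith, le_rfl⟩,
        ⟨by simp only; linarith [ht.1], by simp only; linarith [ht.2]⟩⟩)
  have c4 : ContinuousOn (fun t => m (x - 4) (y + t)) (Icc (-4:ℝ) 4) :=
    hcomp (fun t => (x - 4, y + t)) (by fun_prop)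
      (fun t ht => ⟨⟨le_rfl, by simp only; linarith⟩,
        ⟨by simp only; linarith [ht.1], by simp only; linarith [ht.2]⟩⟩)
  have ca : ContinuousOn (fun t => m (x + t) (y + 4) - m (x + t) (y - 4)) (Icc (-4:ℝ) 4) := c1.sub c2
  have cb : ContinuousOn (fun t => m (x + 4) (y + t) - m (x - 4) (y + t)) (Icc (-4:ℝ) 4) := c3.sub c4
  have h44 : (-4:ℝ) ≤ 4 := by norm_num
  have ia : IntervalIntegrable (fun t => m (x + t) (y + 4) - m (x + t) (y - 4)) volume (-4) 4 := by
    apply ContinuousOn.intervalIntegrable; rw [uIcc_of_le h44]; exact ca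
  have ib : IntervalIntegrable (fun t => Complex.I * (m (x + 4) (y + t) - m (x - 4) (y + t)))
      volume (-4) 4 := by
    apply ContinuousOn.intervalIntegrable; rw [uIcc_of_le h44]; exact continuousOn_const.mul cb
  have hzero : ∫ t in (-4:ℝ)..4, ((m (x + t) (y + 4) - m (x + t) (y - 4))
      - Complex.I * (m (x + 4) (y + t) - m (x - 4) (y + t))) = 0 := by
    rw [intervalIntegral.integral_sub ia ib, intervalIntegral.integral_const_mul, hA, sub_self]
  have him : ∫ t in (-4:ℝ)..4, ((m (x + t) (y + 4) - m (x + t) (y - 4))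
      - Complex.I * (m (x + 4) (y + t) - m (x - 4) (y + t))).im = 0 := by
    have := Complex.imCLM.intervalIntegral_comp_comm (ia.sub ib)
    simp only [Complex.imCLM_apply] at this
    rw [this, hzero]; simp
  have hlow : ∀ t ∈ Icc (-4:ℝ) 4, (2/5 : ℝ) ≤ ((m (x + t) (y + 4) - m (x + t) (y - 4))
      - Complex.I * (m (x + 4) (y + t) - m (x - 4) (y + t))).im := by
    intro t ht
    obtain ⟨b1, b2, b3, b4⟩ := hb t ht
    have ht2 : t ^ 2 ≤ 16 := by nlinarith [ht.1, ht.2]
    have n1 : ((t : ℂ) - 4 * Complex.I) ≠ 0 := by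
      intro h
      have := congrArg Complex.im h
      simp at this
    have n2 : ((t : ℂ) + 4 * Complex.I) ≠ 0 := by
      intro h
      have := congrArg Complex.im h
      simp at this
    have n3 : (4 + (t : ℂ) * Complex.I) ≠ 0 := by
      intro h
      have := congrArg Complex.re h
      simp at this
    have n4 : (-4 + (t : ℂ) * Complex.I) ≠ 0 := by
      intro h
      have := congrArg Complex.re h
      simp at this
    have n5 : ((t : ℂ) ^ 2 + 16) ≠ 0 := by
      have : ((t : ℂ) ^ 2 + 16) = ((t ^ 2 + 16 : ℝ) : ℂ) := by push_cast; ring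
      rw [this]
      exact_mod_cast (by positivity : (t ^ 2 + 16 : ℝ) ≠ 0)
    have key : ((m (x + t) (y + 4) - m (x + t) (y - 4))
        - Complex.I * (m (x + 4) (y + t) - m (x - 4) (y + t)))
        = ((16 / (t ^ 2 + 16) : ℝ) : ℂ) * Complex.I
          + ((m (x + t) (y + 4) + 1 / ((t : ℂ) + 4 * Complex.I))
            - (m (x + t) (y - 4) + 1 / ((t : ℂ) - 4 * Complex.I))
            - Complex.I * (m (x + 4) (y + t) + 1 / (4 + (t : ℂ) * Complex.I))
            + Complex.I * (m (x - 4) (y + t) + 1 / (-4 + (t : ℂ) * Complex.I))) := by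
      have e1 : 1 / ((t : ℂ) + 4 * Complex.I) - 1 / ((t : ℂ) - 4 * Complex.I)
          = -(8 * Complex.I) / ((t : ℂ) ^ 2 + 16) := by
        rw [div_sub_div _ _ n2 n1, div_eq_div_iff (mul_ne_zero n2 n1) n5]
        ring_nf
        rw [show Complex.I ^ 3 = -Complex.I by
          rw [pow_succ, Complex.I_sq]; ring]
        ring
      have e2 : 1 / (4 + (t : ℂ) * Complex.I) - 1 / (-4 + (t : ℂ) * Complex.I)
          = 8 / ((t : ℂ) ^ 2 + 16) := by
        rw [div_sub_div _ _ n3 n4, div_eq_div_iff (mul_ne_zero n3 n4) n5]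
        ring_nf
        rw [Complex.I_sq]
        ring
      have e3 : ((16 / (t ^ 2 + 16) : ℝ) : ℂ) = 16 / ((t : ℂ) ^ 2 + 16) := by push_cast; ring
      rw [e3]
      have e4 : ((m (x + t) (y + 4) + 1 / ((t : ℂ) + 4 * Complex.I))
            - (m (x + t) (y - 4) + 1 / ((t : ℂ) - 4 * Complex.I))
            - Complex.I * (m (x + 4) (y + t) + 1 / (4 + (t : ℂ) * Complex.I))
            + Complex.I * (m (x - 4) (y + t) + 1 / (-4 + (t : ℂ) * Complex.I)))
          = ((m (x + t) (y + 4) - m (x + t) (y - 4))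
        - Complex.I * (m (x + 4) (y + t) - m (x - 4) (y + t)))
          + (1 / ((t : ℂ) + 4 * Complex.I) - 1 / ((t : ℂ) - 4 * Complex.I))
          - Complex.I * (1 / (4 + (t : ℂ) * Complex.I) - 1 / (-4 + (t : ℂ) * Complex.I)) := by
        ring
      rw [e4, e1, e2]
      field_simp
      ring
    rw [key]
    have hn : ‖((m (x + t) (y + 4) + 1 / ((t : ℂ) + 4 * Complex.I))
            - (m (x + t) (y - 4) + 1 / ((t : ℂ) - 4 * Complex.I))
            - Complex.I * (m (x + 4) (y + t) + 1 / (4 + (t : ℂ) * Complex.I))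
            + Complex.I * (m (x - 4) (y + t) + 1 / (-4 + (t : ℂ) * Complex.I)))‖ ≤ 4 / 100 := by
      refine (norm_add_le _ _).trans ?_
      have t1 := norm_sub_le ((m (x + t) (y + 4) + 1 / ((t : ℂ) + 4 * Complex.I))
            - (m (x + t) (y - 4) + 1 / ((t : ℂ) - 4 * Complex.I)))
            (Complex.I * (m (x + 4) (y + t) + 1 / (4 + (t : ℂ) * Complex.I)))
      have t2 := norm_sub_le (m (x + t) (y + 4) + 1 / ((t : ℂ) + 4 * Complex.I))
            (m (x + t) (y - 4) + 1 / ((t : ℂ) - 4 * Complex.I))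
      rw [norm_mul, Complex.norm_I, one_mul] at t1
      rw [norm_mul, Complex.norm_I, one_mul]
      linarith
    rw [Complex.add_im]
    have him2 := (Complex.abs_im_le_norm _).trans hn
    rw [abs_le] at him2
    have e5 : (((16 / (t ^ 2 + 16) : ℝ) : ℂ) * Complex.I).im = 16 / (t ^ 2 + 16) := by
      rw [Complex.mul_im, Complex.I_re, Complex.I_im, Complex.ofReal_re, Complex.ofReal_im]
      ring
    rw [e5]
    have e6 : (1 / 2 : ℝ) ≤ 16 / (t ^ 2 + 16) := by
      rw [div_le_div_iff₀ (by norm_num) (by positivity)]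
      linarith
    linarith [him2.1]
  have hge : ∫ t in (-4:ℝ)..4, (2/5 : ℝ) ≤ ∫ t in (-4:ℝ)..4,
      ((m (x + t) (y + 4) - m (x + t) (y - 4))
      - Complex.I * (m (x + 4) (y + t) - m (x - 4) (y + t))).im := by
    refine intervalIntegral.integral_mono_on h44 intervalIntegrable_const ?_ hlow
    apply ContinuousOn.intervalIntegrable
    rw [uIcc_of_le h44]
    exact Complex.continuous_im.comp_continuousOn (ca.sub (continuousOn_const.mul cb))
  rw [him] at hge
  simp at hge
  norm_num at hge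

end H23.QN
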