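import Pool.Agent.H23.QN.AuxQP

namespace H23.QN

open Filter Topology Set

/-- For a curve with `‖f'‖ ≤ c e^{-λ x}` the increments are at most `c/λ e^{-λ a}`. -/
lemma FE_incr {f f' : ℝ → ℂ} {a b c l : ℝ} (hl : 0 < l) (hc : 0 ≤ c) (hab : a ≤ b)
    (hf : ContinuousOn f (Icc a b))
    (hf' : ∀ x ∈ Ico a b, HasDerivWithinAt f (f' x) (Ici x) x)
    (hb : ∀ x ∈ Ico a b, ‖f' x‖ ≤ c * Real.exp (-l * x)) :
    ‖f b - f a‖ ≤ c / l * Real.exp (-l * a) := by
  have hB : ∀ x : ℝ, HasDerivAt (fun x => c / l * (Real.exp (-l * a) - Real.exp (-l * x)))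
      (c * Real.exp (-l * x)) x := by
    intro x
    have h1 : HasDerivAt (fun x : ℝ => -l * x) (-l) x := by
      simpa using (hasDerivAt_id x).const_mul (-l)
    have h2 := ((h1.exp.const_sub (Real.exp (-l * a))).const_mul (c / l))
    refine h2.congr_deriv ?_
    field_simp
  have h := image_norm_le_of_norm_deriv_right_le_deriv_boundary
    (f := fun x => f x - f a) (f' := f') (a := a) (b := b)
    (B := fun x => c / l * (Real.exp (-l * a) - Real.exp (-l * x)))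
    (B' := fun x => c * Real.exp (-l * x)) (hf.sub continuousOn_const)
    (fun x hx => (hf' x hx).sub_const (f a)) (by simp) hB hb (right_mem_Icc.mpr hab)
  refine h.trans ?_
  have h3 : 0 ≤ c / l := div_nonneg hc hl.le
  exact mul_le_mul_of_nonneg_left (by linarith [Real.exp_pos (-l * b)]) h3

theorem FE (hHD : S_HD) : S_FE := by
  intro ν _ V hV T C a hT hm h0 hdec hlim
  set δ : ℝ := ‖WA.mf (V 0 T)‖ with hδ
  have hδ0 : 0 ≤ δ := norm_nonneg _
  have hδ1 : δ ≤ ‖V 0 T‖ := WA.norm_mf_le _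
  have hδ2 : δ ≤ 1/10 := hδ1.trans h0
  -- horizontal decay
  have hv : ∀ σ : ℝ, 0 ≤ σ → ‖WA.mf (V σ T)‖ ≤ δ * Real.exp (-30 * σ) := by
    intro σ hσ
    have := hHD ν V hV T 0 σ hT le_rfl hσ (fun s hs => (hm s hs.1).trans (by norm_num))
      (by linarith) σ ⟨hσ, le_rfl⟩
    simpa using this
  have hvsq : ∀ σ : ℝ, 0 ≤ σ → ∀ k : ℤ, ‖(WA.mf (V σ T) * WA.mf (V σ T) : WA ν ℂ) k‖
      ≤ δ ^ 2 * Real.exp (-60 * σ) := by
    intro σ hσ k
    have h1 := (WA.coef_le (WA.mf (V σ T) * WA.mf (V σ T) : WA ν ℂ) k).trans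
      (WA.norm_mul_le' _ _)
    have h2 := hv σ hσ
    have h3 : Real.exp (-60 * σ) = Real.exp (-30 * σ) * Real.exp (-30 * σ) := by
      rw [← Real.exp_add]; ring_nf
    rw [h3]
    calc _ ≤ ‖WA.mf (V σ T)‖ * ‖WA.mf (V σ T)‖ := h1
      _ ≤ (δ * Real.exp (-30 * σ)) * (δ * Real.exp (-30 * σ)) :=
        mul_le_mul h2 h2 (norm_nonneg _) (mul_nonneg hδ0 (Real.exp_pos _).le)
      _ = _ := by ring
  -- the extended mean
  set m : ℝ → ℂ := fun s => V (max s 0) T 0 with hmdef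
  have hmc : Continuous m := by
    have h1 : Continuous fun s : ℝ => max s 0 := by fun_prop
    rw [← continuousOn_univ]
    exact (hV.contH0 hT 0).comp h1.continuousOn (fun s _ => le_max_right s 0)
  have hmv : ∀ s : ℝ, 0 ≤ s → m s = V s T 0 := by
    intro s hs; simp [hmdef, max_eq_left hs]
  set P : ℝ → ℂ := fun σ => ∫ s in (0:ℝ)..σ, m s with hP
  have hPd : ∀ σ : ℝ, HasDerivAt P (m σ) σ := fun σ =>
    (hmc.integral_hasStrictDerivAt 0 σ).hasDerivAt
  have hPc : Continuous P := continuous_iff_continuousAt.mpr fun σ => (hPd σ).continuousAt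
  have hP0 : P 0 = 0 := by simp [hP]
  have hPb : ∀ σ : ℝ, 0 ≤ σ → ‖P σ‖ ≤ σ / 10 := by
    intro σ hσ
    have h1 := image_norm_le_of_norm_deriv_right_le_deriv_boundary
      (f := P) (f' := m) (a := 0) (b := σ)
      (B := fun x => x / 10) (B' := fun _ => 1 / 10) hPc.continuousOn
      (fun x _ => (hPd x).hasDerivWithinAt) (by simp [hP0])
      (fun x => by simpa using (hasDerivAt_id x).div_const 10)
      (fun x hx => by rw [hmv x hx.1]; exact hm x hx.1) (right_mem_Icc.mpr hσ)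
    exact h1
  set E : ℝ → ℂ := fun σ => Complex.exp (-P σ) with hE
  have hEd : ∀ σ : ℝ, HasDerivAt E (E σ * (-m σ)) σ := fun σ => (hPd σ).neg.cexp
  have hEc : Continuous E := continuous_iff_continuousAt.mpr fun σ => (hEd σ).continuousAt
  have hEn : ∀ σ : ℝ, ‖E σ‖ ≤ Real.exp ‖P σ‖ := by
    intro σ
    rw [hE, Complex.norm_exp]
    refine Real.exp_le_exp.mpr ?_
    have := Complex.abs_re_le_norm (-P σ)
    rw [norm_neg] at this
    exact (le_abs_self _).trans this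
  have hEn' : ∀ σ : ℝ, Real.exp (-‖P σ‖) ≤ ‖E σ‖ := by
    intro σ
    rw [hE, Complex.norm_exp]
    refine Real.exp_le_exp.mpr ?_
    have := Complex.abs_re_le_norm (-P σ)
    rw [norm_neg] at this
    have := neg_abs_le (-P σ).re
    linarith
  -- g = m E
  have hgd : ∀ σ : ℝ, 0 ≤ σ → HasDerivWithinAt (fun s => V s T 0 * E s)
      ((WA.mf (V σ T) * WA.mf (V σ T) : WA ν ℂ) 0 * E σ) (Ici σ) σ := by
    intro σ hσ
    have h1 := (hV.m_h hσ hT).mul (hEd σ).hasDerivWithinAt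
    refine h1.congr_deriv ?_
    rw [hmv σ hσ]; ring
  have hgc : ContinuousOn (fun s => V s T 0 * E s) (Ici 0) :=
    (hV.contH0 hT 0).mul hEc.continuousOn
  have hg1 : ∀ σ : ℝ, 0 ≤ σ → ∀ S : ℝ, σ ≤ S →
      ‖V S T 0 * E S - V σ T 0 * E σ‖ ≤ (1/100) / (599/10) * Real.exp (-(599/10) * σ) := by
    intro σ hσ S hS
    refine FE_incr (f := fun s => V s T 0 * E s)
      (f' := fun s => (WA.mf (V s T) * WA.mf (V s T) : WA ν ℂ) 0 * E s)
      (by norm_num) (by norm_num) hS (hgc.mono (fun x hx => hσ.trans hx.1))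
      (fun x hx => hgd x (hσ.trans hx.1)) ?_
    intro x hx
    have hx0 : 0 ≤ x := hσ.trans hx.1
    rw [norm_mul]
    have h1 := hvsq x hx0 0
    have h2 : ‖E x‖ ≤ Real.exp (x / 10) :=
      (hEn x).trans (Real.exp_le_exp.mpr (hPb x hx0))
    have h3 : δ ^ 2 ≤ 1 / 100 := by nlinarith
    calc _ ≤ (δ ^ 2 * Real.exp (-60 * x)) * Real.exp (x / 10) :=
          mul_le_mul h1 h2 (norm_nonneg _) (by positivity)
      _ ≤ (1 / 100 * Real.exp (-60 * x)) * Real.exp (x / 10) := by gcongr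
      _ = 1 / 100 * Real.exp (-(599/10) * x) := by
          rw [mul_assoc, ← Real.exp_add]; ring_nf
  have hC : 0 ≤ C := by
    have := (norm_nonneg _).trans (hdec 0 le_rfl)
    simpa using this
  have hg2 : ∀ σ : ℝ, 0 ≤ σ → ‖V σ T 0 * E σ‖ ≤ (1/100) / (599/10) * Real.exp (-(599/10) * σ) := by
    intro σ hσ
    have hlim0 : Tendsto (fun S : ℝ => (1/100) / (599/10) * Real.exp (-(599/10) * σ)
        + C * Real.exp (-(299/10) * S)) atTop
        (𝓝 ((1/100) / (599/10) * Real.exp (-(599/10) * σ) + C * 0)) := by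
      refine tendsto_const_nhds.add (Tendsto.const_mul C ?_)
      refine Real.tendsto_exp_atBot.comp ?_
      exact tendsto_id.const_mul_atTop_of_neg (by norm_num)
    rw [mul_zero, add_zero] at hlim0
    refine ge_of_tendsto hlim0 ?_
    filter_upwards [eventually_ge_atTop σ] with S hS
    have h1 := hg1 σ hσ S hS
    have hS0 := hσ.trans hS
    have h2 : ‖V S T 0 * E S‖ ≤ C * Real.exp (-(299/10) * S) := by
      rw [norm_mul]
      have h3 := (WA.coef_le (V S T) 0).trans (hdec S hS0)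
      have h4 : ‖E S‖ ≤ Real.exp (S / 10) :=
        (hEn S).trans (Real.exp_le_exp.mpr (hPb S hS0))
      calc _ ≤ (C * Real.exp (-30 * S)) * Real.exp (S / 10) :=
            mul_le_mul h3 h4 (norm_nonneg _) (by positivity)
        _ = _ := by rw [mul_assoc, ← Real.exp_add]; ring_nf
    have h5 : V σ T 0 * E σ = V S T 0 * E S - (V S T 0 * E S - V σ T 0 * E σ) := by ring
    rw [h5]
    refine (norm_sub_le _ _).trans ?_
    linarith
  have hmb : ∀ σ : ℝ, 0 ≤ σ → ‖m σ‖ ≤ (1/1000) * Real.exp (-59 * σ) := by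
    intro σ hσ
    rw [hmv σ hσ]
    have h1 := hg2 σ hσ
    rw [norm_mul] at h1
    have h2 := hEn' σ
    have h3 : Real.exp (-(σ/10)) ≤ ‖E σ‖ :=
      (Real.exp_le_exp.mpr (neg_le_neg (hPb σ hσ))).trans h2
    have h4 : ‖V σ T 0‖ * Real.exp (-(σ/10)) ≤ (1/100) / (599/10) * Real.exp (-(599/10) * σ) :=
      (mul_le_mul_of_nonneg_left h3 (norm_nonneg _)).trans h1
    have h5 : ‖V σ T 0‖ = (‖V σ T 0‖ * Real.exp (-(σ/10))) * Real.exp (σ/10) := by
      rw [mul_assoc, ← Real.exp_add]; simp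
    rw [h5]
    calc _ ≤ ((1/100) / (599/10) * Real.exp (-(599/10) * σ)) * Real.exp (σ/10) := by gcongr
      _ = (1/100) / (599/10) * Real.exp (-(598/10) * σ) := by
          rw [mul_assoc, ← Real.exp_add]; ring_nf
      _ ≤ (1/1000) * Real.exp (-59 * σ) := by
          refine mul_le_mul (by norm_num) (Real.exp_le_exp.mpr (by linarith))
            (Real.exp_pos _).le (by norm_num)
  have hPb2 : ∀ σ : ℝ, 0 ≤ σ → ‖P σ‖ ≤ 1/1000 := by
    intro σ hσ
    have h1 := FE_incr (f := P) (f' := m) (a := 0) (b := σ) (c := 1/1000) (l := 59)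
      (by norm_num) (by norm_num) hσ hPc.continuousOn
      (fun x _ => (hPd x).hasDerivWithinAt) (fun x hx => hmb x hx.1)
    rw [hP0, sub_zero] at h1
    refine h1.trans ?_
    norm_num
  have hexp : Real.exp (1/1000) ≤ 101/100 := by
    have := Real.exp_bound_div_one_sub_of_interval (x := 1/1000) (by norm_num) (by norm_num)
    refine this.trans ?_
    norm_num
  have hE1 : ∀ σ : ℝ, 0 ≤ σ → ‖E σ‖ ≤ 101/100 := fun σ hσ =>
    ((hEn σ).trans (Real.exp_le_exp.mpr (hPb2 σ hσ))).trans hexp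
  have hE2 : ∀ σ : ℝ, 0 ≤ σ → 1 ≤ ‖E σ‖ * (101/100) := by
    intro σ hσ
    have h1 := hEn' σ
    have h2 : Real.exp ‖P σ‖ ≤ 101/100 := (Real.exp_le_exp.mpr (hPb2 σ hσ)).trans hexp
    have h3 : 1 = Real.exp (-‖P σ‖) * Real.exp ‖P σ‖ := by rw [← Real.exp_add]; simp
    rw [h3]
    exact mul_le_mul h1 h2 (Real.exp_pos _).le (norm_nonneg _)
  -- D = e^{ω σ} V_1 E^2
  set w : ℝ := om 1 with hw
  have hw39 := om_one_gt
  have hw40 := om_one_lt
  rw [← hw] at hw39 hw40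
  have hexpd : ∀ σ : ℝ, HasDerivAt (fun s : ℝ => ((Real.exp (w * s) : ℝ) : ℂ))
      ((w * Real.exp (w * σ) : ℝ) : ℂ) σ := by
    intro σ
    have h1 : HasDerivAt (fun s : ℝ => w * s) w σ := by
      simpa using (hasDerivAt_id σ).const_mul w
    have h2 := h1.exp.ofReal_comp
    exact h2.congr_deriv (by push_cast; ring)
  have hDd : ∀ σ : ℝ, 0 ≤ σ → HasDerivWithinAt
      (fun s => ((Real.exp (w * s) : ℝ) : ℂ) * V s T 1 * (E s * E s))
      (((Real.exp (w * σ) : ℝ) : ℂ) * (WA.mf (V σ T) * WA.mf (V σ T) : WA ν ℂ) 1 * (E σ * E σ))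
      (Ici σ) σ := by
    intro σ hσ
    have h1 := hV.heat T hT σ hσ 1
    rw [WA.sq_coef _ (by norm_num : (1:ℤ) ≠ 0)] at h1
    have h2 := (((hexpd σ).hasDerivWithinAt (s := Ici σ)).mul h1).mul
      (((hEd σ).mul (hEd σ)).hasDerivWithinAt (s := Ici σ))
    refine h2.congr_deriv ?_
    simp only [Pi.mul_apply]
    rw [hmv σ hσ, ← hw]
    push_cast
    ring
  have hDc : ContinuousOn (fun s => ((Real.exp (w * s) : ℝ) : ℂ) * V s T 1 * (E s * E s)) (Ici 0) := by
    refine ContinuousOn.mul (ContinuousOn.mul ?_ (hV.contH0 hT 1)) (hEc.mul hEc).continuousOn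
    exact Continuous.continuousOn (by fun_prop)
  have hD1 : ∀ σ : ℝ, 0 ≤ σ →
      ‖((Real.exp (w * σ) : ℝ) : ℂ) * V σ T 1 * (E σ * E σ)‖ ≤ ‖V 0 T‖ + δ ^ 2 / 10 := by
    intro σ hσ
    have h1 := FE_incr (f := fun s => ((Real.exp (w * s) : ℝ) : ℂ) * V s T 1 * (E s * E s))
      (f' := fun s => ((Real.exp (w * s) : ℝ) : ℂ) *
        (WA.mf (V s T) * WA.mf (V s T) : WA ν ℂ) 1 * (E s * E s))
      (a := 0) (b := σ) (c := 2 * δ ^ 2) (l := 20) (by norm_num) (by positivity) hσ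
      (hDc.mono (fun x hx => hx.1)) (fun x hx => hDd x hx.1) ?_
    · have h2 : ‖((Real.exp (w * 0) : ℝ) : ℂ) * V 0 T 1 * (E 0 * E 0)‖ ≤ ‖V 0 T‖ := by
        have : E 0 = 1 := by simp [hE, hP0]
        rw [this]
        simpa using WA.coef_le (V 0 T) 1
      have h3 := norm_add_le
        (((Real.exp (w * σ) : ℝ) : ℂ) * V σ T 1 * (E σ * E σ) -
          ((Real.exp (w * 0) : ℝ) : ℂ) * V 0 T 1 * (E 0 * E 0))
        (((Real.exp (w * 0) : ℝ) : ℂ) * V 0 T 1 * (E 0 * E 0))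
      rw [sub_add_cancel] at h3
      have h4 : 2 * δ ^ 2 / 20 * Real.exp (-20 * 0) = δ ^ 2 / 10 := by simp; ring
      simp only [h4] at h1
      linarith
    · intro x hx
      have hx0 : 0 ≤ x := hx.1
      rw [norm_mul, norm_mul, norm_mul, Complex.norm_real, Real.norm_of_nonneg (Real.exp_pos _).le]
      have h1 := hvsq x hx0 1
      have h2 := hE1 x hx0
      have h3 : ‖E x‖ * ‖E x‖ ≤ 2 := by nlinarith [norm_nonneg (E x)]
      calc _ ≤ (Real.exp (w * x) * (δ ^ 2 * Real.exp (-60 * x))) * 2 :=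
            mul_le_mul (mul_le_mul_of_nonneg_left h1 (Real.exp_pos _).le) h3
              (by positivity) (by positivity)
        _ = 2 * δ ^ 2 * (Real.exp (w * x) * Real.exp (-60 * x)) := by ring
        _ ≤ 2 * δ ^ 2 * Real.exp (-20 * x) := by
            rw [← Real.exp_add]
            refine mul_le_mul_of_nonneg_left (Real.exp_le_exp.mpr ?_) (by positivity)
            nlinarith
  have hfin : ∀ σ : ℝ, 0 ≤ σ → ‖((Real.exp (w * σ) : ℝ) : ℂ) * V σ T 1‖ ≤ 2 * ‖V 0 T‖ := by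
    intro σ hσ
    have h1 := hD1 σ hσ
    have h2 := hE2 σ hσ
    rw [norm_mul _ (E σ * E σ), norm_mul (E σ) (E σ)] at h1
    set X := ‖((Real.exp (w * σ) : ℝ) : ℂ) * V σ T 1‖ with hX
    have hX0 : 0 ≤ X := norm_nonneg _
    have h3 : 1 ≤ (‖E σ‖ * ‖E σ‖) * (101/100)^2 := by nlinarith [norm_nonneg (E σ)]
    have h4 : X ≤ (X * (‖E σ‖ * ‖E σ‖)) * (101/100)^2 := by nlinarith
    have h5 : δ ^ 2 ≤ ‖V 0 T‖ * (1/10) := by nlinarith
    nlinarith [norm_nonneg (V 0 T)]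
  have hlim' := hlim.norm
  refine le_of_tendsto hlim' ?_
  filter_upwards [eventually_ge_atTop 0] with σ hσ
  exact hfin σ hσ

end H23.QN
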