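import Pool.Agent.H23.QN.Defs

namespace H23.QN

open Filter Topology Set

/-- integral Gronwall inequality with constant coefficient -/
lemma gronwall_int {y : ℝ → ℝ} {L A K : ℝ} (hK : 0 ≤ K) (hL : 0 ≤ L)
    (hy : ContinuousOn y (Icc 0 L))
    (h : ∀ t ∈ Icc 0 L, y t ≤ A + ∫ τ in (0:ℝ)..t, K * y τ) :
    y L ≤ A * Real.exp (K * L) := by
  set z : ℝ → ℝ := fun t => A + ∫ τ in (0:ℝ)..t, K * y τ with hz
  have hKy : ContinuousOn (fun τ => K * y τ) (Icc 0 L) := continuousOn_const.mul hy
  have hzc : ContinuousOn z (Icc 0 L) := by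
    have := intervalIntegral.continuousOn_primitive_interval (μ := MeasureTheory.volume)
      (f := fun τ => K * y τ) (a := 0) (b := L)
      (by rw [uIcc_of_le hL]; exact hKy.integrableOn_compact isCompact_Icc)
    rw [uIcc_of_le hL] at this
    exact continuousOn_const.add this
  have hzd : ∀ t ∈ Ioo 0 L, HasDerivAt z (K * y t) t := by
    intro t ht
    have hnhds : Icc 0 L ∈ 𝓝 t := Icc_mem_nhds ht.1 ht.2
    have h1 : IntervalIntegrable (fun τ => K * y τ) MeasureTheory.volume 0 t := by
      apply ContinuousOn.intervalIntegrable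
      rw [uIcc_of_le ht.1.le]
      exact hKy.mono (Icc_subset_Icc_right ht.2.le)
    have h2 := intervalIntegral.integral_hasDerivAt_right h1
      ((hKy.stronglyMeasurableAtFilter_nhdsWithin measurableSet_Icc t).filter_mono
        (by rw [nhdsWithin_eq_nhds.mpr hnhds])) (hKy.continuousAt hnhds)
    exact h2.const_add A
  set w : ℝ → ℝ := fun t => Real.exp (-(K * t)) * z t with hw
  have hwc : ContinuousOn w (Icc 0 L) :=
    (Continuous.continuousOn (by fun_prop)).mul hzc
  have hwd : ∀ t ∈ Ioo 0 L, HasDerivAt w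
      (Real.exp (-(K * t)) * (-K) * z t + Real.exp (-(K * t)) * (K * y t)) t := by
    intro t ht
    have h1 : HasDerivAt (fun t : ℝ => -(K * t)) (-K) t := by
      exact (((hasDerivAt_id t).const_mul K).neg).congr_deriv (by simp)
    exact (h1.exp).mul (hzd t ht)
  have hanti : AntitoneOn w (Icc 0 L) := by
    apply antitoneOn_of_deriv_nonpos (convex_Icc 0 L) hwc
    · intro t ht
      rw [interior_Icc] at ht
      exact (hwd t ht).differentiableAt.differentiableWithinAt
    · intro t ht
      rw [interior_Icc] at ht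
      rw [(hwd t ht).deriv]
      have h3 := h t ⟨ht.1.le, ht.2.le⟩
      have h4 : 0 ≤ Real.exp (-(K * t)) * K := mul_nonneg (Real.exp_pos _).le hK
      have h5 : y t - z t ≤ 0 := by simp only [hz]; linarith
      nlinarith [mul_nonneg h4 (neg_nonneg.mpr h5)]
  have h6 := hanti (left_mem_Icc.mpr hL) (right_mem_Icc.mpr hL) hL
  have h7 : w 0 = A := by simp [hw, hz]
  have h8 : z L = Real.exp (K * L) * w L := by
    simp only [hw]
    rw [← mul_assoc, ← Real.exp_add]; simp
  calc y L ≤ z L := h L (right_mem_Icc.mpr hL)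
    _ = Real.exp (K * L) * w L := h8
    _ ≤ Real.exp (K * L) * A := by
        rw [← h7]; exact mul_le_mul_of_nonneg_left h6 (Real.exp_pos _).le
    _ = A * Real.exp (K * L) := by ring

theorem G1 (hL1 : S_L1) : S_G1 := by
  intro ν _ c L β K U N hL hK h hk hN t ht
  have hsub : Icc 0 t ⊆ Icc 0 L := Icc_subset_Icc_right ht.2
  have key := hL1 ν c L β U N hL h hk
  have hmain : ∀ s ∈ Icc 0 t, Real.exp (β * s) * ‖U s‖ ≤ ‖U 0‖
      + ∫ τ in (0:ℝ)..s, K * (Real.exp (β * τ) * ‖U τ‖) := by
    intro s hs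
    have hsub' : Icc 0 s ⊆ Icc 0 L := Icc_subset_Icc_right (hs.2.trans ht.2)
    have h1 := key s (hsub hs)
    have h2 := mul_le_mul_of_nonneg_left h1 (Real.exp_pos (β * s)).le
    refine h2.trans ?_
    rw [mul_add, ← mul_assoc, ← Real.exp_add, ← intervalIntegral.integral_const_mul]
    have h3 : β * s + -β * s = 0 := by ring
    rw [h3, Real.exp_zero, one_mul]
    gcongr ‖U 0‖ + ?_
    refine intervalIntegral.integral_mono_on hs.1 ?_ ?_ (fun τ hτ => ?_)
    · apply ContinuousOn.intervalIntegrable
      rw [uIcc_of_le hs.1]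
      exact continuousOn_const.mul
        ((Continuous.continuousOn (by fun_prop)).mul (h.contN.mono hsub').norm)
    · apply ContinuousOn.intervalIntegrable
      rw [uIcc_of_le hs.1]
      exact continuousOn_const.mul
        ((Continuous.continuousOn (by fun_prop)).mul (h.contU.mono hsub').norm)
    · have h4 := hN τ (hsub' hτ)
      rw [← mul_assoc, ← Real.exp_add]
      have h5 : β * s + -β * (s - τ) = β * τ := by ring
      rw [h5]
      have h6 := mul_le_mul_of_nonneg_left h4 (Real.exp_pos (β * τ)).le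
      calc _ ≤ _ := h6
        _ = _ := by ring
  have h7 := gronwall_int (y := fun s => Real.exp (β * s) * ‖U s‖) hK ht.1
    ((Continuous.continuousOn (by fun_prop)).mul (h.contU.mono hsub).norm) hmain
  have h8 : ‖U t‖ = Real.exp (-(β * t)) * (Real.exp (β * t) * ‖U t‖) := by
    rw [← mul_assoc, ← Real.exp_add]; simp
  rw [h8]
  calc Real.exp (-(β * t)) * (Real.exp (β * t) * ‖U t‖)
      ≤ Real.exp (-(β * t)) * (‖U 0‖ * Real.exp (K * t)) :=
        mul_le_mul_of_nonneg_left h7 (Real.exp_pos _).le
    _ = ‖U 0‖ * (Real.exp (-(β * t)) * Real.exp (K * t)) := by ring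
    _ = ‖U 0‖ * Real.exp ((K - β) * t) := by
        rw [← Real.exp_add]; congr 2; ring

theorem G2 (hL1 : S_L1) : S_G2 := by
  intro ν _ c L K η U N hL hK hη hc h hN t ht
  have hsub : Icc 0 t ⊆ Icc 0 L := Icc_subset_Icc_right ht.2
  have hom : ∀ k : ℤ, 0 ≤ om k := fun k => by unfold om; positivity
  have key := hL1 ν c L 0 U N hL h (fun k => Or.inr (mul_nonneg hc (hom k)))
  have hmain : ∀ s ∈ Icc 0 t, ‖U s‖ ≤ (‖U 0‖ + η * t)
      + ∫ τ in (0:ℝ)..s, K * ‖U τ‖ := by
    intro s hs
    have hsub' : Icc 0 s ⊆ Icc 0 L := Icc_subset_Icc_right (hs.2.trans ht.2)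
    have h1 := key s (hsub hs)
    simp only [neg_zero, zero_mul, Real.exp_zero, one_mul] at h1
    refine h1.trans ?_
    have h2 : ∫ τ in (0:ℝ)..s, ‖N τ‖ ≤ ∫ τ in (0:ℝ)..s, (K * ‖U τ‖ + η) := by
      refine intervalIntegral.integral_mono_on hs.1 ?_ ?_ (fun τ hτ => hN τ (hsub' hτ))
      · apply ContinuousOn.intervalIntegrable
        rw [uIcc_of_le hs.1]
        exact (h.contN.mono hsub').norm
      · apply ContinuousOn.intervalIntegrable
        rw [uIcc_of_le hs.1]
        exact (continuousOn_const.mul (h.contU.mono hsub').norm).add continuousOn_const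
    rw [intervalIntegral.integral_add, intervalIntegral.integral_const] at h2
    · simp only [sub_zero, smul_eq_mul] at h2
      have h3 : s * η ≤ η * t := by nlinarith [hs.2]
      linarith
    · apply ContinuousOn.intervalIntegrable
      rw [uIcc_of_le hs.1]
      exact (continuousOn_const.mul (h.contU.mono hsub').norm)
    · exact intervalIntegrable_const
  exact gronwall_int (y := fun s => ‖U s‖) hK ht.1 (h.contU.mono hsub).norm hmain

end H23.QN
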