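import Pool.Agent.H23.QN.Defs

namespace H23.QN

open Filter Topology Set

lemma duhamel_coef {f n : ℝ → ℂ} {L : ℝ} {c : ℂ} {w β : ℝ}
    (hf : ContinuousOn f (Icc 0 L)) (hn : ContinuousOn n (Icc 0 L))
    (hd : ∀ t ∈ Ico 0 L, HasDerivWithinAt f (-(c * (w : ℂ) * f t) + n t) (Ici t) t)
    (hβ : β ≤ c.re * w) {t : ℝ} (ht : t ∈ Icc 0 L) :
    ‖f t‖ ≤ Real.exp (-β * t) * ‖f 0‖ + ∫ τ in (0:ℝ)..t, Real.exp (-β * (t - τ)) * ‖n τ‖ := by
  have hsub : Icc 0 t ⊆ Icc 0 L := Icc_subset_Icc_right ht.2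
  have hec : Continuous fun s : ℝ => Complex.exp (-(c * w) * ((t : ℂ) - s)) := by fun_prop
  have hFTC : ∫ s in (0:ℝ)..t, Complex.exp (-(c * w) * ((t : ℂ) - s)) * n s
      = Complex.exp (-(c * w) * ((t : ℂ) - (t:ℝ))) * f t
        - Complex.exp (-(c * w) * ((t : ℂ) - (0:ℝ))) * f 0 := by
    refine intervalIntegral.integral_eq_sub_of_hasDeriv_right_of_le
      (f := fun s : ℝ => Complex.exp (-(c * w) * ((t : ℂ) - s)) * f s) ht.1
      (hec.continuousOn.mul (hf.mono hsub)) (fun s hs => ?_) ?_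
    · have hs' : s ∈ Ico 0 L := ⟨hs.1.le, hs.2.trans_le ht.2⟩
      have h1 : HasDerivAt (fun s : ℝ => Complex.exp (-(c * w) * ((t : ℂ) - s)))
          (Complex.exp (-(c * w) * ((t : ℂ) - s)) * (c * w)) s := by
        have h2 : HasDerivAt (fun s : ℝ => -(c * w) * ((t : ℂ) - s)) (c * w) s := by
          have h3 : HasDerivAt (fun s : ℝ => ((s : ℝ) : ℂ)) 1 s := Complex.ofRealCLM.hasDerivAt
          have h4 := (h3.const_sub (t : ℂ)).const_mul (-(c * w))
          exact h4.congr_deriv (by ring)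
        exact h2.cexp
      have h5 := (h1.hasDerivWithinAt (s := Ioi s)).mul ((hd s hs').mono Ioi_subset_Ici_self)
      exact h5.congr_deriv (by ring)
    · apply ContinuousOn.intervalIntegrable
      rw [uIcc_of_le ht.1]
      exact hec.continuousOn.mul (hn.mono hsub)
  have hft : f t = Complex.exp (-(c * w) * (t : ℂ)) * f 0
      + ∫ s in (0:ℝ)..t, Complex.exp (-(c * w) * ((t : ℂ) - s)) * n s := by
    rw [hFTC]; simp
  have hexp : ∀ s : ℝ, s ≤ t → ‖Complex.exp (-(c * w) * ((t : ℂ) - s))‖ ≤ Real.exp (-β * (t - s)) := by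
    intro s hs
    rw [Complex.norm_exp]
    apply Real.exp_le_exp.mpr
    have : (-(c * w) * ((t : ℂ) - s)).re = -(c.re * w) * (t - s) := by
      simp [Complex.mul_re]
    rw [this]
    have h6 : 0 ≤ t - s := by linarith
    nlinarith [mul_le_mul_of_nonneg_right hβ h6]
  have h0t := hexp 0 ht.1
  rw [hft]
  refine (norm_add_le _ _).trans (add_le_add ?_ ?_)
  · rw [norm_mul]
    refine mul_le_mul_of_nonneg_right ?_ (norm_nonneg _)
    simpa using h0t
  · refine (intervalIntegral.norm_integral_le_integral_norm ht.1).trans ?_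
    refine intervalIntegral.integral_mono_on ht.1 ?_ ?_ (fun s hs => ?_)
    · apply ContinuousOn.intervalIntegrable
      rw [uIcc_of_le ht.1]
      exact (hec.continuousOn.mul (hn.mono hsub)).norm
    · apply ContinuousOn.intervalIntegrable
      rw [uIcc_of_le ht.1]
      exact (Continuous.continuousOn (by fun_prop)).mul (hn.mono hsub).norm
    · rw [norm_mul]
      exact mul_le_mul_of_nonneg_right (hexp s hs.2) (norm_nonneg _)

theorem L1 : S_L1 := by
  intro ν _ c L β U N hL h hk t ht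
  have hsub : Icc 0 t ⊆ Icc 0 L := Icc_subset_Icc_right ht.2
  have hUk : ∀ k : ℤ, ContinuousOn (fun s => U s k) (Icc 0 L) :=
    fun k => (WA.continuous_coef k).comp_continuousOn h.contU
  have hNk : ∀ k : ℤ, ContinuousOn (fun s => N s k) (Icc 0 L) :=
    fun k => (WA.continuous_coef k).comp_continuousOn h.contN
  have hcoef : ∀ k : ℤ, ‖U t k‖ ≤ Real.exp (-β * t) * ‖U 0 k‖
      + ∫ τ in (0:ℝ)..t, Real.exp (-β * (t - τ)) * ‖N τ k‖ := by
    intro k
    rcases hk k with hz | hβ
    · rw [(hz t ht).1, norm_zero]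
      refine add_nonneg (mul_nonneg (Real.exp_pos _).le (norm_nonneg _)) ?_
      exact intervalIntegral.integral_nonneg ht.1
        (fun s _ => mul_nonneg (Real.exp_pos _).le (norm_nonneg _))
    · exact duhamel_coef (hUk k) (hNk k) (h.deriv k) hβ ht
  apply WA.norm_le_of_sum_le
  intro s
  have hint : ∀ k : ℤ, IntervalIntegrable (fun τ => Real.exp (-β * (t - τ)) * ‖N τ k‖ * ν ^ k.natAbs)
      MeasureTheory.volume 0 t := by
    intro k
    apply ContinuousOn.intervalIntegrable
    rw [uIcc_of_le ht.1]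
    exact ((Continuous.continuousOn (by fun_prop)).mul ((hNk k).mono hsub).norm).mul
      continuousOn_const
  calc ∑ k ∈ s, ‖U t k‖ * ν ^ k.natAbs
      ≤ ∑ k ∈ s, (Real.exp (-β * t) * (‖U 0 k‖ * ν ^ k.natAbs)
        + ∫ τ in (0:ℝ)..t, Real.exp (-β * (t - τ)) * ‖N τ k‖ * ν ^ k.natAbs) := by
        refine Finset.sum_le_sum (fun k _ => ?_)
        rw [intervalIntegral.integral_mul_const]
        have := mul_le_mul_of_nonneg_right (hcoef k) (wt_pos ν k).le
        linarith
    _ = Real.exp (-β * t) * (∑ k ∈ s, ‖U 0 k‖ * ν ^ k.natAbs)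
        + ∫ τ in (0:ℝ)..t, ∑ k ∈ s, Real.exp (-β * (t - τ)) * ‖N τ k‖ * ν ^ k.natAbs := by
        rw [Finset.sum_add_distrib, Finset.mul_sum,
          intervalIntegral.integral_finsetSum (fun k _ => hint k)]
    _ ≤ Real.exp (-β * t) * ‖U 0‖ + ∫ τ in (0:ℝ)..t, Real.exp (-β * (t - τ)) * ‖N τ‖ := by
        refine add_le_add (mul_le_mul_of_nonneg_left (WA.sum_le_norm _ s) (Real.exp_pos _).le) ?_
        refine intervalIntegral.integral_mono_on ht.1 ?_ ?_ (fun τ hτ => ?_)
        · apply ContinuousOn.intervalIntegrable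
          rw [uIcc_of_le ht.1]
          refine continuousOn_finsetSum _ (fun k _ => ?_)
          exact ((Continuous.continuousOn (by fun_prop)).mul ((hNk k).mono hsub).norm).mul
            continuousOn_const
        · apply ContinuousOn.intervalIntegrable
          rw [uIcc_of_le ht.1]
          exact (Continuous.continuousOn (by fun_prop)).mul (h.contN.mono hsub).norm
        · calc ∑ k ∈ s, Real.exp (-β * (t - τ)) * ‖N τ k‖ * ν ^ k.natAbs
              = Real.exp (-β * (t - τ)) * ∑ k ∈ s, ‖N τ k‖ * ν ^ k.natAbs := by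
                rw [Finset.mul_sum]
                exact Finset.sum_congr rfl (fun k _ => by ring)
            _ ≤ _ := mul_le_mul_of_nonneg_left (WA.sum_le_norm _ s) (Real.exp_pos _).le

end H23.QN
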