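import Pool.Agent.H23.QN.Defs

/-! # QN: the final theorem from `FW` and `TR` -/

namespace H23.QN

open Filter Topology Set
open scoped BigOperators

noncomputable section

lemma main_nrmA_zero (ν : ℝ) : nrmA ν 0 = 0 := by
  unfold nrmA
  have h : ∀ k : ℤ, ‖fourierCoeff ((0 : C(UnitAddCircle, ℂ)) : UnitAddCircle → ℂ) k‖ *
      ν ^ k.natAbs = 0 := by
    intro k
    have : fourierCoeff ((0 : C(UnitAddCircle, ℂ)) : UnitAddCircle → ℂ) k = 0 := by
      simp [fourierCoeff]
    rw [this, norm_zero, zero_mul]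
  simp only [h, tsum_zero]

lemma main_coeff_zero (k : ℤ) :
    fourierCoeff ((0 : C(UnitAddCircle, ℂ)) : UnitAddCircle → ℂ) k = 0 := by
  simp [fourierCoeff]

lemma main_zero_sol (ν : ℝ) (J : Set ℝ) : IsSol ν J (fun _ => 0) where
  mem := by
    intro t _
    unfold InA
    simp only [main_coeff_zero, norm_zero, zero_mul]
    exact summable_zero
  cont := by
    intro t _
    simp only [sub_self, main_nrmA_zero]
    exact tendsto_const_nhds
  eqn := by
    intro t _ k
    simp only [mul_zero, main_coeff_zero, neg_zero, add_zero]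
    exact hasDerivWithinAt_const _ _ _

lemma main_eq_zero {ν : ℝ} (hν : 1 ≤ ν) (f : C(UnitAddCircle, ℂ)) (h : InA ν f)
    (h0 : nrmA ν f ≤ 0) : f = 0 := by
  have hw : ∀ k : ℤ, 0 < ν ^ k.natAbs := fun k => pow_pos (by linarith) _
  have hn : ∀ k : ℤ, 0 ≤ ‖fourierCoeff f k‖ * ν ^ k.natAbs := fun k =>
    mul_nonneg (norm_nonneg _) (hw k).le
  have hc : ∀ k : ℤ, fourierCoeff f k = 0 := by
    intro k
    have h1 : ‖fourierCoeff f k‖ * ν ^ k.natAbs ≤ nrmA ν f := h.le_tsum k (fun j _ => hn j)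
    have h2 : ‖fourierCoeff f k‖ * ν ^ k.natAbs = 0 := le_antisymm (h1.trans h0) (hn k)
    rcases mul_eq_zero.mp h2 with h3 | h3
    · exact norm_eq_zero.mp h3
    · exact absurd h3 (hw k).ne'
  have hs : Summable (fourierCoeff f) := by
    have : fourierCoeff f = fun _ => 0 := funext hc
    rw [this]
    exact summable_zero
  have h3 := hasSum_fourier_series_of_summable hs
  have h4 : HasSum (fun _ : ℤ => (0 : C(UnitAddCircle, ℂ))) f := by
    refine h3.congr_fun ?_
    intro i
    ext x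
    simp [hc i]
  exact h4.unique hasSum_zero

theorem MAIN (h1 : S_FW) (h2 : S_TR) : S_Main := by
  intro ν hν ε hε
  obtain ⟨u0, hr, hA, hlt, hno⟩ := h1 ν hν ε hε
  refine ⟨u0, hr, hA, ?_, hlt, hno, ?_⟩
  · by_contra hcon
    push Not at hcon
    have h0 := main_eq_zero hν u0 hA hcon
    apply hno
    refine ⟨fun _ => 0, main_zero_sol ν _, h0.symm, ?_⟩
    simp only [main_nrmA_zero]
    exact tendsto_const_nhds
  · rintro ⟨u, hu, hu0, hut⟩
    obtain ⟨h3, h4⟩ := h2 ν hν u hu
    apply hno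
    refine ⟨fun t => star (u (-t)), h3, ?_, h4 hut⟩
    change star (u (-0)) = u0
    rw [neg_zero, hu0]
    ext x
    rw [ContinuousMap.star_apply]
    exact Complex.conj_eq_iff_im.mpr (hr x)

end

end H23.QN
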