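import Pool.Agent.H23.QN.AuxQP

namespace H23.QN

open Filter Topology Set Complex

/-! ### numerical constants -/

lemma exp_four_le : Real.exp 4 ≤ 81 := by
  have h : Real.exp 4 = Real.exp 1 ^ 4 := by rw [← Real.exp_nat_mul]; norm_num
  rw [h]
  have h1 : Real.exp 1 ≤ 3 := by have := Real.exp_one_lt_d9; linarith
  calc Real.exp 1 ^ 4 ≤ 3 ^ 4 := pow_le_pow_left₀ (Real.exp_pos _).le h1 4
    _ = 81 := by norm_num

lemma exp_nat_le (n : ℕ) : Real.exp n ≤ 3 ^ n := by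
  have h : Real.exp n = Real.exp 1 ^ n := by rw [← Real.exp_nat_mul]; simp
  rw [h]
  have h1 : Real.exp 1 ≤ 3 := by have := Real.exp_one_lt_d9; linarith
  exact pow_le_pow_left₀ (Real.exp_pos _).le h1 n

lemma exp_neg_nat_le (n : ℕ) : Real.exp (-n) ≤ (1 / 2) ^ n := by
  have h : Real.exp (-n) = Real.exp (-1) ^ n := by rw [← Real.exp_nat_mul]; simp
  rw [h]
  have h1 : Real.exp (-1) ≤ 1 / 2 := by have := Real.exp_neg_one_lt_d9; linarith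
  exact pow_le_pow_left₀ (Real.exp_pos _).le h1 n

lemma K1_le : (0 + (1 / 2 : ℝ) ^ 150 * 12 * 40) * Real.exp (1 / 10 * 40) ≤ 40000 * (1 / 2) ^ 150 := by
  have h : Real.exp (1 / 10 * 40) ≤ 81 := by
    have : (1 / 10 * 40 : ℝ) = 4 := by norm_num
    rw [this]; exact exp_four_le
  calc (0 + (1 / 2 : ℝ) ^ 150 * 12 * 40) * Real.exp (1 / 10 * 40)
      ≤ (0 + (1 / 2 : ℝ) ^ 150 * 12 * 40) * 81 := mul_le_mul_of_nonneg_left h (by positivity)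
    _ ≤ _ := by nlinarith [show (0:ℝ) < (1 / 2) ^ 150 by positivity]

lemma K2_le : (40000 * (1 / 2) ^ 150 + (1 / 2 : ℝ) ^ 150 * 12 * 65) * Real.exp (1 / 2 * 65)
    ≤ 1 / 10 ^ 12 := by
  have h : Real.exp (1 / 2 * 65) ≤ 3 ^ 33 := by
    refine le_trans (Real.exp_le_exp.mpr ?_) (exp_nat_le 33)
    norm_num
  calc (40000 * (1 / 2) ^ 150 + (1 / 2 : ℝ) ^ 150 * 12 * 65) * Real.exp (1 / 2 * 65)
      ≤ (40000 * (1 / 2) ^ 150 + (1 / 2 : ℝ) ^ 150 * 12 * 65) * 3 ^ 33 :=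
        mul_le_mul_of_nonneg_left h (by positivity)
    _ ≤ _ := by norm_num

lemma K3_le : (1 / 10 ^ 12 + (1 / 2 : ℝ) ^ 150 * 12 * 8) * Real.exp (1 / 2 * 8)
    ≤ 1 / 10 ^ 9 := by
  have h : Real.exp (1 / 2 * 8) ≤ 81 := by
    have : (1 / 2 * 8 : ℝ) = 4 := by norm_num
    rw [this]; exact exp_four_le
  calc (1 / 10 ^ 12 + (1 / 2 : ℝ) ^ 150 * 12 * 8) * Real.exp (1 / 2 * 8)
      ≤ (1 / 10 ^ 12 + (1 / 2 : ℝ) ^ 150 * 12 * 8) * 81 :=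
        mul_le_mul_of_nonneg_left h (by positivity)
    _ ≤ _ := by norm_num

/-! ### The linear function `D` -/

/-- `D(σ,T) = 1 - z₀ ((σ-σ₀) + (T-T₀) i)` -/
noncomputable def Dd (z0 : ℂ) (σ0 T0 σ T : ℝ) : ℂ :=
  1 - z0 * (((σ - σ0 : ℝ) : ℂ) + ((T - T0 : ℝ) : ℂ) * I)

lemma Dd_h (z0 : ℂ) (σ0 T0 T x : ℝ) :
    HasDerivAt (fun x => Dd z0 σ0 T0 x T) (-(1 * z0)) x := by
  have h1 : HasDerivAt (fun x : ℝ => (((x - σ0 : ℝ) : ℂ) + ((T - T0 : ℝ) : ℂ) * I)) 1 x := by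
    have h2 : HasDerivAt (fun x : ℝ => ((x - σ0 : ℝ) : ℂ)) 1 x := by
      have := ((hasDerivAt_id x).sub_const σ0).ofReal_comp
      exact this.congr_deriv (by simp)
    exact h2.add_const _
  exact ((h1.const_mul z0).const_sub 1).congr_deriv (by ring)

lemma Dd_v (z0 : ℂ) (σ0 T0 σ y : ℝ) :
    HasDerivAt (fun y => Dd z0 σ0 T0 σ y) (-(I * z0)) y := by
  have h1 : HasDerivAt (fun y : ℝ => (((σ - σ0 : ℝ) : ℂ) + ((y - T0 : ℝ) : ℂ) * I)) I y := by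
    have h2 : HasDerivAt (fun y : ℝ => ((y - T0 : ℝ) : ℂ)) 1 y := by
      have := ((hasDerivAt_id y).sub_const T0).ofReal_comp
      exact this.congr_deriv (by simp)
    exact ((h2.mul_const I).const_add _).congr_deriv (by ring)
  exact ((h1.const_mul z0).const_sub 1).congr_deriv (by ring)

lemma Dd_norm_le {z0 : ℂ} {σ0 T0 σ T : ℝ} (hz : ‖z0‖ ≤ 1 / 10) (h1 : |σ - σ0| ≤ 65)
    (h2 : |T - T0| ≤ 40) : ‖Dd z0 σ0 T0 σ T‖ ≤ 12 := by
  unfold Dd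
  have h3 : ‖(((σ - σ0 : ℝ) : ℂ) + ((T - T0 : ℝ) : ℂ) * I)‖ ≤ 105 := by
    refine (norm_add_le _ _).trans ?_
    rw [norm_mul, norm_I, mul_one, Complex.norm_real, Complex.norm_real, Real.norm_eq_abs,
      Real.norm_eq_abs]
    linarith
  calc ‖1 - z0 * (((σ - σ0 : ℝ) : ℂ) + ((T - T0 : ℝ) : ℂ) * I)‖
      ≤ ‖(1:ℂ)‖ + ‖z0 * (((σ - σ0 : ℝ) : ℂ) + ((T - T0 : ℝ) : ℂ) * I)‖ := norm_sub_le _ _
    _ ≤ 1 + 1 / 10 * 105 := by
        rw [norm_one, norm_mul]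
        exact add_le_add le_rfl (mul_le_mul hz h3 (norm_nonneg _) (by norm_num))
    _ ≤ 12 := by norm_num

/-! ### Context -/

/-- the standing hypotheses near the extremal point -/
structure NXctx {ν : ℝ} [Fact (1 ≤ ν)] (V : ℝ → ℝ → WA ν ℂ) (σ1 T1 : ℝ) : Prop where
  hV : IsQP V
  hσ : 1000 ≤ σ1
  hT : 100 ≤ T1
  h0 : ∀ T ∈ Icc (T1 - 20) (T1 + 20), ‖V 0 T‖ ≤ 1
  hl : ∀ T ∈ Icc (T1 - 20) (T1 + 20), ∀ σ : ℝ, 0 ≤ σ → σ ≤ σ1 - 50 → ‖V σ T 0‖ ≤ 1 / 10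

variable {ν : ℝ} [Fact (1 ≤ ν)] {V : ℝ → ℝ → WA ν ℂ} {σ1 T1 : ℝ}

/-- decay of the mean-free part to the right of `σ1 - 50` while `|m| ≤ 1/2`. -/
lemma NXctx.decay (c : NXctx V σ1 T1) (hHD : S_HD) {T X : ℝ} (hT : T ∈ Icc (T1 - 20) (T1 + 20))
    (hm : ∀ σ ∈ Icc (σ1 - 50) X, ‖V σ T 0‖ ≤ 1 / 2) :
    ∀ σ ∈ Icc (σ1 - 50) X, ‖WA.mf (V σ T)‖ ≤ (1 / 2) ^ 200 := by
  intro σ hσ
  have hσ1 := c.hσ
  have hT1 := c.hT
  have hX : σ1 - 50 ≤ X := hσ.1.trans hσ.2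
  have h1 := hHD ν V c.hV T 0 X (by linarith [hT.1]) le_rfl (by linarith) (fun s hs => by
    rcases le_total s (σ1 - 50) with h | h
    · exact (c.hl T hT s hs.1 h).trans (by norm_num)
    · exact hm s ⟨h, hs.2⟩) ((WA.norm_mf_le _).trans (c.h0 T hT)) σ ⟨by linarith [hσ.1], hσ.2⟩
  have h2 : ‖WA.mf (V 0 T)‖ ≤ 1 := (WA.norm_mf_le _).trans (c.h0 T hT)
  calc ‖WA.mf (V σ T)‖ ≤ ‖WA.mf (V 0 T)‖ * Real.exp (-30 * (σ - 0)) := h1
    _ ≤ 1 * Real.exp (-(200 : ℕ)) := by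
        refine mul_le_mul h2 (Real.exp_le_exp.mpr ?_) (Real.exp_pos _).le (by norm_num)
        have := hσ.1
        push_cast
        linarith
    _ ≤ (1 / 2) ^ 200 := by rw [one_mul]; exact exp_neg_nat_le 200

lemma q_small {a : WA ν ℂ} (h : ‖WA.mf a‖ ≤ (1 / 2) ^ 150) :
    ‖(WA.mf a * WA.mf a : WA ν ℂ) 0‖ ≤ (1 / 2) ^ 150 := by
  refine (norm_q_le a).trans ?_
  have h1 : ‖WA.mf a‖ ≤ 1 := h.trans (by norm_num)
  calc ‖WA.mf a‖ ^ 2 = ‖WA.mf a‖ * ‖WA.mf a‖ := pow_two _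
    _ ≤ (1 / 2) ^ 150 * 1 := mul_le_mul h h1 (norm_nonneg _) (by norm_num)
    _ = _ := mul_one _

lemma pow200_le : (1 / 2 : ℝ) ^ 200 ≤ (1 / 2) ^ 150 := by norm_num

/-- Stage 1: the vertical segment `σ = σ1 - 50`. -/
lemma NXctx.stage1 (c : NXctx V σ1 T1) (hHD : S_HD) (hQS : S_QS) {T : ℝ}
    (hT : T ∈ Icc (T1 - 20) (T1 + 20)) :
    ‖V (σ1 - 50) T 0 * Dd (V (σ1 - 50) (T1 - 20) 0) (σ1 - 50) (T1 - 20) (σ1 - 50) T
      - V (σ1 - 50) (T1 - 20) 0‖ ≤ 40000 * (1 / 2) ^ 150 := by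
  have hσ1 := c.hσ
  have hT1 := c.hT
  set z0 := V (σ1 - 50) (T1 - 20) 0 with hz0
  have hz0n : ‖z0‖ ≤ 1 / 10 :=
    c.hl (T1 - 20) ⟨le_rfl, by linarith⟩ (σ1 - 50) (by linarith) le_rfl
  have h := hQS I z0 (fun y => V (σ1 - 50) y 0)
    (fun y => (WA.mf (V (σ1 - 50) y) * WA.mf (V (σ1 - 50) y)) 0)
    (fun y => Dd z0 (σ1 - 50) (T1 - 20) (σ1 - 50) y) (T1 - 20) (T1 + 20) (1 / 10)
    ((1 / 2) ^ 150) 12 Complex.norm_I (by linarith) (by norm_num) (by positivity) (by norm_num)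
    ((c.hV.contV0 (by linarith) 0).mono (fun y hy => by
      have := hy.1
      change (0:ℝ) ≤ y
      linarith))
    (fun y hy => c.hV.m_v (by linarith) (by linarith [hy.1]))
    (fun y => Dd_v z0 _ _ _ y)
    (fun y hy => ⟨c.hl y hy _ (by linarith) le_rfl, by
      apply q_small
      refine (c.decay hHD hy (X := σ1 - 50) (fun s hs => ?_) (σ1 - 50) ⟨le_rfl, le_rfl⟩).trans
        pow200_le
      exact (c.hl y hy s (by linarith [hs.1]) hs.2).trans (by norm_num), by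
      apply Dd_norm_le hz0n
      · simp
      · rw [abs_le]; constructor <;> linarith [hy.1, hy.2]⟩) T hT
  refine h.trans ?_
  have h0 : V (σ1 - 50) (T1 - 20) 0 * Dd z0 (σ1 - 50) (T1 - 20) (σ1 - 50) (T1 - 20) - z0 = 0 := by
    simp [Dd, hz0]
  simp only [h0, norm_zero]
  have h3 : T1 + 20 - (T1 - 20) = 40 := by ring
  rw [h3]
  exact K1_le

/-- Stage 2: on horizontals. -/
lemma NXctx.stage2 (c : NXctx V σ1 T1) (hHD : S_HD) (hQS : S_QS) {T X : ℝ}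
    (hT : T ∈ Icc (T1 - 20) (T1 + 20)) (hX : σ1 - 50 ≤ X) (hX2 : X ≤ σ1 + 15)
    (hm : ∀ σ ∈ Icc (σ1 - 50) X, ‖V σ T 0‖ ≤ 1 / 2) :
    ‖V X T 0 * Dd (V (σ1 - 50) (T1 - 20) 0) (σ1 - 50) (T1 - 20) X T
      - V (σ1 - 50) (T1 - 20) 0‖ ≤ 1 / 10 ^ 12 := by
  have hσ1 := c.hσ
  have hT1 := c.hT
  have hst := c.stage1 hHD hQS hT
  set z0 := V (σ1 - 50) (T1 - 20) 0 with hz0
  have hz0n : ‖z0‖ ≤ 1 / 10 :=
    c.hl (T1 - 20) ⟨le_rfl, by linarith⟩ (σ1 - 50) (by linarith) le_rfl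
  have hdec := c.decay hHD hT hm
  have h := hQS 1 z0 (fun x => V x T 0)
    (fun x => (WA.mf (V x T) * WA.mf (V x T)) 0)
    (fun x => Dd z0 (σ1 - 50) (T1 - 20) x T) (σ1 - 50) X (1 / 2)
    ((1 / 2) ^ 150) 12 norm_one hX (by norm_num) (by positivity) (by norm_num)
    ((c.hV.contH0 (by linarith [hT.1]) 0).mono (fun y hy => by
      have := hy.1
      change (0:ℝ) ≤ y
      linarith))
    (fun y hy => c.hV.m_h (by linarith [hy.1]) (by linarith [hT.1]))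
    (fun y => Dd_h z0 _ _ _ y)
    (fun y hy => ⟨hm y hy, q_small ((hdec y hy).trans pow200_le), by
      apply Dd_norm_le hz0n
      · rw [abs_le]; constructor <;> linarith [hy.1, hy.2]
      · rw [abs_le]; constructor <;> linarith [hT.1, hT.2]⟩) X ⟨hX, le_rfl⟩
  refine h.trans (le_trans ?_ K2_le)
  have h65 : X - (σ1 - 50) ≤ 65 := by linarith
  have hX0 : 0 ≤ X - (σ1 - 50) := by linarith
  refine mul_le_mul (add_le_add hst ?_) (Real.exp_le_exp.mpr ?_) (Real.exp_pos _).le (by positivity)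
  · exact mul_le_mul_of_nonneg_left h65 (by positivity)
  · linarith

/-- division: `m D - z₀` small and `|D| ≥ 4|z₀|` give `|m| < 1/2`. -/
lemma m_lt_half {m D z0 : ℂ} {κ : ℝ} (h1 : ‖m * D - z0‖ ≤ κ) (hκ : κ ≤ 1 / 10 ^ 9)
    (hz : 1 / 81 ≤ ‖z0‖) (hD : 4 * ‖z0‖ ≤ ‖D‖) : ‖m‖ < 1 / 2 := by
  have h2 : ‖m * D‖ ≤ ‖z0‖ + κ := by
    calc ‖m * D‖ = ‖(m * D - z0) + z0‖ := by ring_nf
      _ ≤ ‖m * D - z0‖ + ‖z0‖ := norm_add_le _ _
      _ ≤ _ := by linarith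
  rw [norm_mul] at h2
  by_contra hcon
  push Not at hcon
  have h3 : 1 / 2 * (4 * ‖z0‖) ≤ ‖m‖ * ‖D‖ :=
    mul_le_mul hcon hD (by positivity) (norm_nonneg _)
  have h4 : κ ≤ 1 / 1000 := hκ.trans (by norm_num)
  linarith

/-- Stage 2, bootstrapped. -/
lemma NXctx.stage2b (c : NXctx V σ1 T1) (hHD : S_HD) (hQS : S_QS) (hBT : S_BT) {T X : ℝ}
    (hT : T ∈ Icc (T1 - 20) (T1 + 20)) (hX : σ1 - 50 ≤ X) (hX2 : X ≤ σ1 + 15)
    (hz : 1 / 81 ≤ ‖V (σ1 - 50) (T1 - 20) 0‖)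
    (hD : ∀ σ ∈ Icc (σ1 - 50) X, 4 * ‖V (σ1 - 50) (T1 - 20) 0‖ ≤
      ‖Dd (V (σ1 - 50) (T1 - 20) 0) (σ1 - 50) (T1 - 20) σ T‖) :
    ∀ σ ∈ Icc (σ1 - 50) X, ‖V σ T 0‖ < 1 / 2 := by
  have hσ1 := c.hσ
  have hT1 := c.hT
  have hcont : ContinuousOn (fun t : ℝ => ‖V (σ1 - 50 + t) T 0‖) (Icc 0 (X - (σ1 - 50))) := by
    have h1 : ContinuousOn (fun t : ℝ => σ1 - 50 + t) (Icc 0 (X - (σ1 - 50))) := by fun_prop
    have hmaps : MapsTo (fun t : ℝ => σ1 - 50 + t) (Icc 0 (X - (σ1 - 50))) (Ici 0) := by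
      intro t ht
      change (0:ℝ) ≤ σ1 - 50 + t
      linarith [ht.1]
    exact (ContinuousOn.comp (g := fun x => V x T 0)
      (c.hV.contH0 (by linarith [hT.1]) 0) h1 hmaps).norm
  have key := hBT (fun t : ℝ => ‖V (σ1 - 50 + t) T 0‖) (X - (σ1 - 50)) (1 / 2) (by linarith) hcont
    (by
      have := c.hl T hT (σ1 - 50) (by linarith) le_rfl
      simp only [add_zero]
      linarith)
    (fun t ht hle => by
      have hm : ∀ σ ∈ Icc (σ1 - 50) (σ1 - 50 + t), ‖V σ T 0‖ ≤ 1 / 2 := by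
        intro σ hσ
        have := hle (σ - (σ1 - 50)) ⟨by linarith [hσ.1], by linarith [hσ.2]⟩
        simpa using this
      have h2 := c.stage2 hHD hQS hT (X := σ1 - 50 + t) (by linarith [ht.1])
        (by linarith [ht.2]) hm
      exact m_lt_half h2 (by norm_num) hz
        (hD _ ⟨by linarith [ht.1], by linarith [ht.2]⟩))
  intro σ hσ
  have := key (σ - (σ1 - 50)) ⟨by linarith [hσ.1], by linarith [hσ.2]⟩
  simpa using this

lemma pow200_exp17 : (1 / 2 : ℝ) ^ 200 ≤ Real.exp (-17) := by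
  have h1 : Real.exp 17 ≤ 3 ^ 17 := by
    have := exp_nat_le 17
    exact_mod_cast this
  rw [Real.exp_neg]
  have h2 : ((3:ℝ) ^ 17)⁻¹ ≤ (Real.exp 17)⁻¹ := inv_anti₀ (Real.exp_pos _) h1
  refine le_trans ?_ h2
  norm_num

lemma pow200_exp16 : (1 / 2 : ℝ) ^ 200 * Real.exp 16 ≤ (1 / 2) ^ 150 := by
  have h1 : Real.exp 16 ≤ 3 ^ 16 := by
    have := exp_nat_le 16
    exact_mod_cast this
  calc (1 / 2 : ℝ) ^ 200 * Real.exp 16 ≤ (1 / 2 : ℝ) ^ 200 * 3 ^ 16 :=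
        mul_le_mul_of_nonneg_left h1 (by positivity)
    _ ≤ _ := by norm_num

/-- Stage 3: the right side of the square. `Y` is the lower corner, `t ∈ [0, 8]`. -/
lemma NXctx.stage3 (c : NXctx V σ1 T1) (hHD : S_HD) (hVG : S_VG) (hQS : S_QS)
    {X Y t : ℝ} (ht : t ∈ Icc (0:ℝ) 8)
    (hY : T1 - 20 ≤ Y) (hY2 : Y + 8 ≤ T1 + 20) (hX : σ1 - 50 ≤ X) (hX2 : X ≤ σ1 + 15)
    (hm0 : ∀ σ ∈ Icc (σ1 - 50) X, ‖V σ Y 0‖ ≤ 1 / 2)
    (hm : ∀ T ∈ Icc Y (Y + t), ‖V X T 0‖ ≤ 1 / 2) :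
    ‖V X (Y + t) 0 * Dd (V (σ1 - 50) (T1 - 20) 0) (σ1 - 50) (T1 - 20) X (Y + t)
      - V (σ1 - 50) (T1 - 20) 0‖ ≤ 1 / 10 ^ 9 := by
  have hσ1 := c.hσ
  have hT1 := c.hT
  have hYm : Y ∈ Icc (T1 - 20) (T1 + 20) := ⟨hY, by linarith⟩
  have hst := c.stage2 hHD hQS hYm hX hX2 hm0
  set z0 := V (σ1 - 50) (T1 - 20) 0 with hz0
  have hz0n : ‖z0‖ ≤ 1 / 10 :=
    c.hl (T1 - 20) ⟨le_rfl, by linarith⟩ (σ1 - 50) (by linarith) le_rfl
  have hdec := c.decay hHD hYm hm0 X ⟨hX, le_rfl⟩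
  have hvg := hVG ν V c.hV X Y (Y + t) (by linarith) (by linarith) (by linarith [ht.1])
    (by linarith [ht.2]) hm (hdec.trans pow200_exp17)
  have h := hQS I z0 (fun y => V X y 0)
    (fun y => (WA.mf (V X y) * WA.mf (V X y)) 0)
    (fun y => Dd z0 (σ1 - 50) (T1 - 20) X y) Y (Y + t) (1 / 2)
    ((1 / 2) ^ 150) 12 Complex.norm_I (by linarith [ht.1]) (by norm_num) (by positivity)
    (by norm_num)
    ((c.hV.contV0 (by linarith) 0).mono (fun y hy => by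
      have := hy.1
      change (0:ℝ) ≤ y
      linarith))
    (fun y hy => c.hV.m_v (by linarith) (by linarith [hy.1]))
    (fun y => Dd_v z0 _ _ _ y)
    (fun y hy => ⟨hm y hy, by
      apply q_small
      refine (hvg y hy).trans (le_trans ?_ pow200_exp16)
      exact mul_le_mul_of_nonneg_right hdec (Real.exp_pos _).le, by
      apply Dd_norm_le hz0n
      · rw [abs_le]; constructor <;> linarith
      · rw [abs_le]; constructor <;> linarith [hy.1, hy.2, ht.2]⟩) (Y + t)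
      ⟨by linarith [ht.1], le_rfl⟩
  refine h.trans (le_trans ?_ K3_le)
  have h8 : Y + t - Y ≤ 8 := by linarith [ht.2]
  have h0 : 0 ≤ Y + t - Y := by linarith [ht.1]
  refine mul_le_mul (add_le_add hst ?_) (Real.exp_le_exp.mpr ?_) (Real.exp_pos _).le (by positivity)
  · exact mul_le_mul_of_nonneg_left h8 (by positivity)
  · linarith

/-- Stage 3, bootstrapped. -/
lemma NXctx.stage3b (c : NXctx V σ1 T1) (hHD : S_HD) (hVG : S_VG) (hQS : S_QS) (hBT : S_BT)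
    {X Y : ℝ} (hY : T1 - 20 ≤ Y) (hY2 : Y + 8 ≤ T1 + 20) (hX : σ1 - 50 ≤ X) (hX2 : X ≤ σ1 + 15)
    (hz : 1 / 81 ≤ ‖V (σ1 - 50) (T1 - 20) 0‖)
    (hm0 : ∀ σ ∈ Icc (σ1 - 50) X, ‖V σ Y 0‖ < 1 / 2)
    (hD : ∀ T ∈ Icc Y (Y + 8), 4 * ‖V (σ1 - 50) (T1 - 20) 0‖ ≤
      ‖Dd (V (σ1 - 50) (T1 - 20) 0) (σ1 - 50) (T1 - 20) X T‖) :
    ∀ t ∈ Icc (0:ℝ) 8, ‖V X (Y + t) 0‖ < 1 / 2 := by
  have hσ1 := c.hσ
  have hT1 := c.hT
  have hcont : ContinuousOn (fun t : ℝ => ‖V X (Y + t) 0‖) (Icc 0 8) := by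
    have h1 : ContinuousOn (fun t : ℝ => Y + t) (Icc 0 8) := by fun_prop
    have hmaps : MapsTo (fun t : ℝ => Y + t) (Icc 0 8) (Ici 0) := by
      intro t ht
      change (0:ℝ) ≤ Y + t
      linarith [ht.1]
    exact (ContinuousOn.comp (g := fun y => V X y 0)
      (c.hV.contV0 (by linarith) 0) h1 hmaps).norm
  refine hBT (fun t : ℝ => ‖V X (Y + t) 0‖) 8 (1 / 2) (by norm_num) hcont
    (by simpa using hm0 X ⟨hX, le_rfl⟩)
    (fun t ht hle => ?_)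
  have hm : ∀ T ∈ Icc Y (Y + t), ‖V X T 0‖ ≤ 1 / 2 := by
    intro T hT
    have := hle (T - Y) ⟨by linarith [hT.1], by linarith [hT.2]⟩
    simpa using this
  have h2 := c.stage3 hHD hVG hQS ht hY hY2 hX hX2 (fun σ hσ => (hm0 σ hσ).le) hm
  exact m_lt_half h2 le_rfl hz (hD _ ⟨by linarith [ht.1], by linarith [ht.2]⟩)

/-- `D = z₀ (p - s)` -/
lemma Dd_eq {z0 : ℂ} (hz : z0 ≠ 0) (σ0 T0 σ T : ℝ) :
    Dd z0 σ0 T0 σ T = z0 * ((((σ0 : ℝ) : ℂ) + ((T0 : ℝ) : ℂ) * I + 1 / z0)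
      - (((σ : ℝ) : ℂ) + ((T : ℝ) : ℂ) * I)) := by
  unfold Dd
  push_cast
  field_simp
  ring

/-- the boundary estimate: `|m + 1/(s-p)| ≤ 1/100`. -/
lemma bdry_est {m D z0 w : ℂ} (h1 : ‖m * D - z0‖ ≤ 1 / 10 ^ 9) (hz : 1 / 81 ≤ ‖z0‖)
    (hD : D = z0 * (-w)) (hw : 4 ≤ ‖w‖) : ‖m + 1 / w‖ ≤ 1 / 100 := by
  have hz0 : z0 ≠ 0 := by
    intro h; rw [h, norm_zero] at hz; norm_num at hz
  have hw0 : w ≠ 0 := by
    intro h; rw [h, norm_zero] at hw; norm_num at hw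
  have h2 : m + 1 / w = -((m * D - z0) / (z0 * w)) := by
    rw [hD]; field_simp; ring
  rw [h2, norm_neg, norm_div, norm_mul]
  rw [div_le_iff₀ (by positivity)]
  have h3 : 1 / 81 * 4 ≤ ‖z0‖ * ‖w‖ := mul_le_mul hz hw (by norm_num) (norm_nonneg _)
  have h4 : (1:ℝ) / 10 ^ 9 ≤ 1 / 100 * (1 / 81 * 4) := by norm_num
  nlinarith

lemma norm_ge_re {a b : ℝ} (h : 4 ≤ |a|) : 4 ≤ ‖((a : ℂ) + (b : ℂ) * I)‖ := by
  refine h.trans ?_
  have := Complex.abs_re_le_norm ((a : ℂ) + (b : ℂ) * I)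
  simpa using this

lemma norm_ge_im {a b : ℝ} (h : 4 ≤ |b|) : 4 ≤ ‖((a : ℂ) + (b : ℂ) * I)‖ := by
  refine h.trans ?_
  have := Complex.abs_im_le_norm ((a : ℂ) + (b : ℂ) * I)
  simpa using this

theorem NX (hHD : S_HD) (hVG : S_VG) (hQS : S_QS) (hCT : S_CT) (hBT : S_BT) : S_NX := by
  intro ν _ V hV σ1 T1 hσ1 hT1 hs1 h0 hl
  have c : NXctx V σ1 T1 :=
    { hV := hV, hσ := hσ1, hT := hT1, h0 := h0
      hl := fun T hT σ h0 hσ => (hl T hT σ h0 (by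
        have : |T - T1| ≤ 20 := by rw [abs_le]; constructor <;> linarith [hT.1, hT.2]
        linarith)).le }
  set z0 := V (σ1 - 50) (T1 - 20) 0 with hz0
  have hz0n : ‖z0‖ ≤ 1 / 10 :=
    c.hl (T1 - 20) ⟨le_rfl, by linarith⟩ (σ1 - 50) (by linarith) le_rfl
  have hT1m : T1 ∈ Icc (T1 - 20) (T1 + 20) := ⟨by linarith, by linarith⟩
  -- the estimate at s1
  have hm1 : ∀ σ ∈ Icc (σ1 - 50) σ1, ‖V σ T1 0‖ ≤ 1 / 2 := by
    intro σ hσ
    rcases lt_or_eq_of_le hσ.2 with h | h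
    · have := hl T1 hT1m σ (by linarith [hσ.1]) (by simpa using h)
      linarith
    · rw [h, hs1]; norm_num
  have hQ1 := c.stage2 hHD hQS hT1m (X := σ1) (by linarith) (by linarith) hm1
  rw [← hz0] at hQ1
  set D1 := Dd z0 (σ1 - 50) (T1 - 20) σ1 T1 with hD1
  have hD1a : ‖D1‖ ≤ 10 * (‖z0‖ + 1 / 10 ^ 12) := by
    have h1 : ‖V σ1 T1 0 * D1‖ ≤ ‖z0‖ + 1 / 10 ^ 12 := by
      calc ‖V σ1 T1 0 * D1‖ = ‖(V σ1 T1 0 * D1 - z0) + z0‖ := by ring_nf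
        _ ≤ ‖V σ1 T1 0 * D1 - z0‖ + ‖z0‖ := norm_add_le _ _
        _ ≤ _ := by linarith
    rw [norm_mul, hs1] at h1
    linarith
  have hD1b : 1 - 70 * ‖z0‖ ≤ ‖D1‖ := by
    have h1 : ‖z0 * (((σ1 - (σ1 - 50) : ℝ) : ℂ) + ((T1 - (T1 - 20) : ℝ) : ℂ) * I)‖ ≤ ‖z0‖ * 70 := by
      rw [norm_mul]
      refine mul_le_mul_of_nonneg_left ?_ (norm_nonneg _)
      refine (norm_add_le _ _).trans ?_
      rw [norm_mul, Complex.norm_I, mul_one, Complex.norm_real, Complex.norm_real,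
        Real.norm_eq_abs, Real.norm_eq_abs]
      have e1 : σ1 - (σ1 - 50) = 50 := by ring
      have e2 : T1 - (T1 - 20) = 20 := by ring
      rw [e1, e2]; norm_num
    have h2 : 1 = ‖D1 + z0 * (((σ1 - (σ1 - 50) : ℝ) : ℂ) + ((T1 - (T1 - 20) : ℝ) : ℂ) * I)‖ := by
      rw [hD1]; unfold Dd; simp
    have h3 := norm_add_le D1 (z0 * (((σ1 - (σ1 - 50) : ℝ) : ℂ) + ((T1 - (T1 - 20) : ℝ) : ℂ) * I))
    linarith
  have hz81 : 1 / 81 ≤ ‖z0‖ := by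
    have : (1:ℝ) / 10 ^ 12 ≤ 1 / 1000 / 10 := by norm_num
    linarith
  have hz0ne : z0 ≠ 0 := by
    intro h; rw [h, norm_zero] at hz81; norm_num at hz81
  -- the pole
  set p : ℂ := (((σ1 - 50 : ℝ) : ℂ) + ((T1 - 20 : ℝ) : ℂ) * I + 1 / z0) with hp
  have hDp : ∀ σ T : ℝ, Dd z0 (σ1 - 50) (T1 - 20) σ T
      = z0 * (-(((σ - p.re : ℝ) : ℂ) + ((T - p.im : ℝ) : ℂ) * I)) := by
    intro σ T
    rw [Dd_eq hz0ne, ← hp]
    congr 1
    apply Complex.ext <;> simp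
  have hps1 : ‖p - (((σ1 : ℝ) : ℂ) + ((T1 : ℝ) : ℂ) * I)‖ ≤ 10.01 := by
    have h1 : ‖D1‖ = ‖z0‖ * ‖p - (((σ1 : ℝ) : ℂ) + ((T1 : ℝ) : ℂ) * I)‖ := by
      rw [hD1, Dd_eq hz0ne, norm_mul]
    rw [h1] at hD1a
    have hpos : 0 < ‖z0‖ := norm_pos_iff.mpr hz0ne
    by_contra hcon
    push Not at hcon
    have h2 : ‖z0‖ * 10.01 < ‖z0‖ * ‖p - (((σ1 : ℝ) : ℂ) + ((T1 : ℝ) : ℂ) * I)‖ :=
      mul_lt_mul_of_pos_left hcon hpos
    have h3 : ‖z0‖ * 10.01 < 10 * (‖z0‖ + 1 / 10 ^ 12) := h2.trans_le hD1a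
    have h4 : (1:ℝ) / 10 ^ 12 * 10 ≤ 1 / 81 * 0.01 := by norm_num
    nlinarith
  have hpre : |p.re - σ1| ≤ 10.01 := by
    have := (Complex.abs_re_le_norm (p - (((σ1 : ℝ) : ℂ) + ((T1 : ℝ) : ℂ) * I))).trans hps1
    simpa using this
  have hpim : |p.im - T1| ≤ 10.01 := by
    have := (Complex.abs_im_le_norm (p - (((σ1 : ℝ) : ℂ) + ((T1 : ℝ) : ℂ) * I))).trans hps1
    simpa using this
  rw [abs_le] at hpre hpim
  set x := p.re with hx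
  set y := p.im with hy
  -- bounds on D along the paths
  have hDle : ∀ σ T : ℝ, (4 ≤ |σ - x| ∨ 4 ≤ |T - y|) →
      4 * ‖z0‖ ≤ ‖Dd z0 (σ1 - 50) (T1 - 20) σ T‖ := by
    intro σ T h
    rw [hDp, norm_mul, norm_neg, mul_comm]
    refine mul_le_mul_of_nonneg_left ?_ (norm_nonneg _)
    rcases h with h | h
    · exact norm_ge_re h
    · exact norm_ge_im h
  have hout : ∀ T ∈ Icc (y - 4) (y + 4), T ∈ Icc (T1 - 20) (T1 + 20) := by
    intro T hT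
    exact ⟨by linarith [hT.1], by linarith [hT.2]⟩
  -- bottom
  have hbot : ∀ σ ∈ Icc (σ1 - 50) (x + 4), ‖V σ (y - 4) 0‖ < 1 / 2 :=
    c.stage2b hHD hQS hBT (hout _ ⟨le_rfl, by linarith⟩) (by linarith) (by linarith) hz81
      (fun σ _ => hDle σ _ (Or.inr (by
        have : y - 4 - y = -4 := by ring
        rw [this]; norm_num)))
  have htop : ∀ σ ∈ Icc (σ1 - 50) (x + 4), ‖V σ (y + 4) 0‖ < 1 / 2 :=
    c.stage2b hHD hQS hBT (hout _ ⟨by linarith, le_rfl⟩) (by linarith) (by linarith) hz81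
      (fun σ _ => hDle σ _ (Or.inr (by
        have : y + 4 - y = 4 := by ring
        rw [this]; norm_num)))
  have hleft : ∀ T ∈ Icc (y - 4) (y + 4), ∀ σ ∈ Icc (σ1 - 50) (x - 4), ‖V σ T 0‖ < 1 / 2 := by
    intro T hT
    exact c.stage2b hHD hQS hBT (hout _ hT) (by linarith) (by linarith) hz81
      (fun σ hσ => hDle σ _ (Or.inl (by
        rw [le_abs]; right; linarith [hσ.2])))
  have hright : ∀ t ∈ Icc (0:ℝ) 8, ‖V (x + 4) (y - 4 + t) 0‖ < 1 / 2 :=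
    c.stage3b hHD hVG hQS hBT (X := x + 4) (Y := y - 4) (by linarith) (by linarith) (by linarith)
      (by linarith) hz81 hbot
      (fun T _ => hDle _ _ (Or.inl (by
        have : x + 4 - x = 4 := by ring
        rw [this]; norm_num)))
  -- the contour
  refine hCT (fun σ T => V σ T 0)
    (fun σ T => (V σ T 0) ^ 2 + (WA.mf (V σ T) * WA.mf (V σ T)) 0) x y ?_ ?_ ?_ ?_ ?_
  · refine hV.cont_f.mono ?_
    rintro ⟨a, b⟩ ⟨ha, hb⟩
    exact ⟨by change (0:ℝ) ≤ a; linarith [ha.1], by change (0:ℝ) ≤ b; linarith [hb.1]⟩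
  · refine ((WA.continuous_coef 0).comp_continuousOn hV.cont).mono ?_
    rintro ⟨a, b⟩ ⟨ha, hb⟩
    exact ⟨by change (0:ℝ) ≤ a; linarith [ha.1], by change (0:ℝ) ≤ b; linarith [hb.1]⟩
  · intro T hT
    exact hV.int_h (by linarith) (by linarith) (by linarith [hT.1])
  · intro σ hσ
    exact hV.int_v (by linarith) (by linarith) (by linarith [hσ.1])
  · intro t ht
    have hsmall : (1:ℝ) / 10 ^ 12 ≤ 1 / 10 ^ 9 := by norm_num
    refine ⟨?_, ?_, ?_, ?_⟩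
    · -- bottom
      have hXt : x + t ∈ Icc (σ1 - 50) (x + 4) := ⟨by linarith [ht.1], by linarith [ht.2]⟩
      have h1 := (c.stage2 hHD hQS (hout (y - 4) ⟨le_rfl, by linarith⟩) hXt.1
        (by linarith [ht.2]) (fun σ hσ => (hbot σ ⟨hσ.1, hσ.2.trans hXt.2⟩).le)).trans hsmall
      refine bdry_est (z0 := z0) h1 hz81 ?_ ?_
      · rw [hDp]; congr 2; apply Complex.ext <;> simp
      · have := norm_ge_im (a := t) (b := -4) (by norm_num)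
        have e : ((t : ℂ) - 4 * I) = ((t : ℂ) + ((-4 : ℝ) : ℂ) * I) := by push_cast; ring
        rw [e]; exact this
    · -- top
      have hXt : x + t ∈ Icc (σ1 - 50) (x + 4) := ⟨by linarith [ht.1], by linarith [ht.2]⟩
      have h1 := (c.stage2 hHD hQS (hout (y + 4) ⟨by linarith, le_rfl⟩) hXt.1
        (by linarith [ht.2]) (fun σ hσ => (htop σ ⟨hσ.1, hσ.2.trans hXt.2⟩).le)).trans hsmall
      refine bdry_est (z0 := z0) h1 hz81 ?_ ?_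
      · rw [hDp]; congr 2; apply Complex.ext <;> simp
      · have := norm_ge_im (a := t) (b := 4) (by norm_num)
        have e : ((t : ℂ) + 4 * I) = ((t : ℂ) + ((4 : ℝ) : ℂ) * I) := by push_cast; ring
        rw [e]; exact this
    · -- right
      have e0 : y + t = y - 4 + (t + 4) := by ring
      have ht8 : t + 4 ∈ Icc (0:ℝ) 8 := ⟨by linarith [ht.1], by linarith [ht.2]⟩
      have h1 := c.stage3 hHD hVG hQS (X := x + 4) (Y := y - 4) ht8 (by linarith) (by linarith)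
        (by linarith) (by linarith) (fun σ hσ => (hbot σ hσ).le) (fun T hT => by
          have := hright (T - (y - 4)) ⟨by linarith [hT.1], by linarith [hT.2, ht.2]⟩
          have e1 : y - 4 + (T - (y - 4)) = T := by ring
          rw [e1] at this
          exact this.le)
      rw [← e0] at h1
      refine bdry_est (z0 := z0) h1 hz81 ?_ ?_
      · rw [hDp]; congr 2; apply Complex.ext <;> simp
      · have := norm_ge_re (a := 4) (b := t) (by norm_num)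
        have e : ((4 : ℂ) + (t : ℂ) * I) = (((4 : ℝ) : ℂ) + (t : ℂ) * I) := by push_cast; ring
        rw [e]; exact this
    · -- left
      have hTt : y + t ∈ Icc (y - 4) (y + 4) := ⟨by linarith [ht.1], by linarith [ht.2]⟩
      have h1 := (c.stage2 hHD hQS (hout _ hTt) (X := x - 4) (by linarith)
        (by linarith) (fun σ hσ => (hleft _ hTt σ hσ).le)).trans hsmall
      refine bdry_est (z0 := z0) h1 hz81 ?_ ?_
      · rw [hDp]; congr 2; apply Complex.ext <;> simp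
      · have := norm_ge_re (a := -4) (b := t) (by norm_num)
        have e : ((-4 : ℂ) + (t : ℂ) * I) = (((-4 : ℝ) : ℂ) + (t : ℂ) * I) := by push_cast; ring
        rw [e]; exact this

end H23.QN
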