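import Pool.Agent.H23.QN.Defs

namespace H23.QN

open Filter Topology Set

lemma gronwallBound_le {δ K ε x : ℝ} (hK : 0 ≤ K) (hε : 0 ≤ ε) (hx : 0 ≤ x) :
    gronwallBound δ K ε x ≤ (δ + ε * x) * Real.exp (K * x) := by
  rcases eq_or_lt_of_le hK with h | h
  · rw [← h, gronwallBound_K0]; simp
  · rw [gronwallBound_of_K_ne_0 h.ne', add_mul]
    refine add_le_add le_rfl ?_
    have h1 : Real.exp (K * x) - 1 ≤ K * x * Real.exp (K * x) := by
      have h2 := Real.add_one_le_exp (-(K * x))
      have h3 : Real.exp (K * x) * Real.exp (-(K * x)) = 1 := by rw [← Real.exp_add]; simp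
      nlinarith [Real.exp_pos (K * x)]
    rw [div_mul_eq_mul_div, div_le_iff₀ h]
    calc ε * (Real.exp (K * x) - 1) ≤ ε * (K * x * Real.exp (K * x)) :=
          mul_le_mul_of_nonneg_left h1 hε
      _ = _ := by ring

theorem QS : S_QS := by
  intro d z0 m q D a b M η Λ hd hab hM hη hΛ hm hdm hD hb x hx
  have hDc : Continuous D := continuous_iff_continuousAt.mpr fun x => (hD x).continuousAt
  have h1 := norm_le_gronwallBound_of_norm_deriv_right_le
    (f := fun x => m x * D x - z0)
    (f' := fun x => (d * (m x ^ 2 + q x)) * D x + m x * (-(d * z0)))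
    (δ := ‖m a * D a - z0‖) (K := M) (ε := η * Λ) (a := a) (b := b)
    ((hm.mul hDc.continuousOn).sub continuousOn_const)
    (fun y hy => (((hdm y hy).mul (hD y).hasDerivWithinAt).sub_const z0))
    le_rfl (fun y hy => by
      have hy' : y ∈ Icc a b := ⟨hy.1, hy.2.le⟩
      obtain ⟨e1, e2, e3⟩ := hb y hy'
      have e4 : (d * (m y ^ 2 + q y)) * D y + m y * (-(d * z0))
          = d * (m y * (m y * D y - z0) + q y * D y) := by ring
      rw [e4, norm_mul, hd, one_mul]
      refine (norm_add_le _ _).trans (add_le_add ?_ ?_)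
      · rw [norm_mul]; exact mul_le_mul_of_nonneg_right e1 (norm_nonneg _)
      · rw [norm_mul]; exact mul_le_mul e2 e3 (norm_nonneg _) hη)
    x hx
  refine h1.trans ((gronwallBound_le hM (mul_nonneg hη hΛ) (by linarith [hx.1])).trans ?_)
  have h2 : x - a ≤ b - a := by linarith [hx.2]
  have h3 : 0 ≤ x - a := by linarith [hx.1]
  refine mul_le_mul ?_ (Real.exp_le_exp.mpr (mul_le_mul_of_nonneg_left h2 hM))
    (Real.exp_pos _).le ?_
  · gcongr
  · have := mul_nonneg (mul_nonneg hη hΛ) (h3.trans h2)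
    positivity

end H23.QN
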