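import Pool.Agent.H23.QN.AuxQP

namespace H23.QN

open Filter Topology Set

lemma exp_neg_le_inv {x : ℝ} (hx : 0 ≤ x) : Real.exp (-x) ≤ 1 / (1 + x) := by
  rw [Real.exp_neg, ← one_div]
  apply one_div_le_one_div_of_le (by linarith)
  linarith [Real.add_one_le_exp x]

theorem R (hLC : S_LC) (hRC : S_RC) (hRA : S_RA) (hSEL : S_SEL) (hNX : S_NX) (hFE : S_FE) :
    S_R := by
  intro ν _ V hV C a hC hleft ha
  set C' := max C 1 with hC'
  have hC1 : 1 ≤ C' := le_max_right _ _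
  have hCC : ∀ σ : ℝ, 0 ≤ σ → ‖V σ 0‖ ≤ C' * Real.exp (-30 * σ) := fun σ hσ =>
    (hC σ hσ).trans (mul_le_mul_of_nonneg_right (le_max_left _ _) (Real.exp_pos _).le)
  have hsmall : ∀ δ : ℝ, 0 < δ → ∃ T' : ℝ, 0 ≤ T' ∧ ∀ T ≥ T', ‖V 0 T‖ ≤ δ := by
    intro δ hδ
    have h1 := (hleft.eventually (Iio_mem_nhds hδ)).and (eventually_ge_atTop (0:ℝ))
    obtain ⟨T', hT'⟩ := (eventually_atTop.mp h1)
    refine ⟨max T' 0, le_max_right _ _, fun T hT => ?_⟩
    exact (hT' T ((le_max_left _ _).trans hT)).1.le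
  -- left control
  have hl : ∀ c : ℝ, ∃ T' : ℝ, ∀ T ≥ T', ∀ σ ∈ Icc 0 c, ‖V σ T 0‖ < 1 / 10 := by
    intro c
    set δ : ℝ := min (1 / 40) (1 / (4 * (|c| + 1))) with hδ
    have hδ0 : 0 < δ := lt_min (by norm_num) (by positivity)
    obtain ⟨T', hT'0, hT'⟩ := hsmall δ hδ0
    refine ⟨T', fun T hT σ hσ => ?_⟩
    have h1 : 4 * δ * σ ≤ 1 := by
      have h2 : δ ≤ 1 / (4 * (|c| + 1)) := min_le_right _ _
      have h3 : σ ≤ |c| + 1 := by
        have := le_abs_self c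
        linarith [hσ.2]
      have h4 : 0 < |c| + 1 := by positivity
      calc 4 * δ * σ ≤ 4 * (1 / (4 * (|c| + 1))) * (|c| + 1) := by
            have := hσ.1
            gcongr
        _ = 1 := by field_simp
    have h2 := hLC ν V hV T δ (hT'0.trans hT) hδ0 (hT' T hT) σ hσ.1 h1
    have h3 : δ ≤ 1 / 40 := min_le_left _ _
    calc ‖V σ T 0‖ ≤ ‖V σ T‖ := WA.coef_le _ 0
      _ ≤ 2 * δ := h2
      _ < 1 / 10 := by linarith
  -- right control
  have hr0 : ∀ T : ℝ, 80 * C' ≤ T → ∀ σ : ℝ, T / 2 ≤ σ →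
      4 * (C' * Real.exp (-30 * σ)) * T ≤ 1 ∧ 2 * (C' * Real.exp (-30 * σ)) < 1 / 10 := by
    intro T hT σ hσ
    have hT0 : 80 ≤ T := by linarith
    have h1 : Real.exp (-30 * σ) ≤ Real.exp (-(14 * T)) * Real.exp (-T) := by
      rw [← Real.exp_add]
      exact Real.exp_le_exp.mpr (by linarith)
    have h2 : Real.exp (-T) * T ≤ 1 := by
      have := Real.add_one_le_exp T
      have h3 : Real.exp (-T) * Real.exp T = 1 := by rw [← Real.exp_add]; simp
      nlinarith [Real.exp_pos (-T)]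
    have h3 : Real.exp (-(14 * T)) ≤ 1 / (1 + 14 * T) := exp_neg_le_inv (by linarith)
    have h4 : C' * Real.exp (-(14 * T)) ≤ 1 / 1000 := by
      calc C' * Real.exp (-(14 * T)) ≤ C' * (1 / (1 + 14 * T)) :=
            mul_le_mul_of_nonneg_left h3 (by linarith)
        _ ≤ 1 / 1000 := by
            rw [mul_one_div, div_le_div_iff₀ (by linarith) (by norm_num)]
            linarith
    have h5 : Real.exp (-T) ≤ 1 := Real.exp_le_one_iff.mpr (by linarith)
    have h6 : C' * Real.exp (-30 * σ) ≤ (C' * Real.exp (-(14 * T))) * Real.exp (-T) := by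
      calc C' * Real.exp (-30 * σ) ≤ C' * (Real.exp (-(14 * T)) * Real.exp (-T)) :=
            mul_le_mul_of_nonneg_left h1 (by linarith)
        _ = _ := by ring
    have h7 : 0 ≤ C' * Real.exp (-(14 * T)) := by positivity
    constructor
    · calc 4 * (C' * Real.exp (-30 * σ)) * T
          ≤ 4 * ((C' * Real.exp (-(14 * T))) * Real.exp (-T)) * T := by gcongr
        _ = 4 * (C' * Real.exp (-(14 * T))) * (Real.exp (-T) * T) := by ring
        _ ≤ 4 * (1 / 1000) * 1 := by gcongr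
        _ ≤ 1 := by norm_num
    · calc 2 * (C' * Real.exp (-30 * σ)) ≤ 2 * ((C' * Real.exp (-(14 * T))) * Real.exp (-T)) := by
            gcongr
        _ ≤ 2 * (1 / 1000 * 1) := by gcongr
        _ < 1 / 10 := by norm_num
  have hr : ∃ T' : ℝ, ∀ T ≥ T', ∀ σ : ℝ, T / 2 ≤ σ → ‖V σ T 0‖ < 1 / 10 := by
    refine ⟨80 * C', fun T hT σ hσ => ?_⟩
    obtain ⟨h1, h2⟩ := hr0 T hT σ hσ
    have hσ0 : 0 ≤ σ := by linarith
    have h3 := hRC ν V hV σ T (C' * Real.exp (-30 * σ)) hσ0 (by linarith) (by positivity)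
      (hCC σ hσ0) h1
    exact ((WA.coef_le _ 0).trans h3).trans_lt h2
  -- no exit
  have hcont : ContinuousOn (fun p : ℝ × ℝ => ‖V p.1 p.2 0‖) (Ici 0 ×ˢ Ici 0) :=
    ((WA.continuous_coef 0).comp_continuousOn hV.cont).norm
  have hgood : ∃ Tb : ℝ, ∀ T ≥ Tb, ∀ σ : ℝ, 0 ≤ σ → ‖V σ T 0‖ < 1 / 10 := by
    by_contra hcon
    obtain ⟨T0, hT00, hT0⟩ := hsmall 1 one_pos
    obtain ⟨σ1, T1, e1, e2, e3, e4, e5⟩ :=
      hSEL (fun σ T => ‖V σ T 0‖) hcont hl hr hcon T0 1000 hT00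
    exact hNX ν V hV σ1 T1 e2 (by linarith) e4
      (fun T hT => hT0 T (by linarith [hT.1])) e5
  -- conclusion
  obtain ⟨Tb, hTb⟩ := hgood
  obtain ⟨Tc, hTc0, hTc⟩ := hsmall (1 / 10) (by norm_num)
  have hbound : ∀ T ≥ max Tb Tc, ‖a‖ ≤ 2 * ‖V 0 T‖ := by
    intro T hT
    have hTb' : Tb ≤ T := (le_max_left _ _).trans hT
    have hTc' : Tc ≤ T := (le_max_right _ _).trans hT
    have hT0 : 0 ≤ T := hTc0.trans hTc'
    have hRAT := hRA ν V hV C a hC ha T hT0
    -- a bound on the whole horizontal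
    obtain ⟨CT, hCT⟩ : ∃ CT : ℝ, ∀ σ : ℝ, 0 ≤ σ → ‖V σ T‖ ≤ CT * Real.exp (-30 * σ) := by
      set S : ℝ := 4 * C' * T with hS
      have hS0 : 0 ≤ S := by positivity
      obtain ⟨B, hB⟩ := (isCompact_Icc (a := (0:ℝ)) (b := S)).exists_bound_of_continuousOn
        ((hV.contH hT0).mono (fun x hx => hx.1))
      refine ⟨max (2 * C') (B * Real.exp (30 * S)), fun σ hσ => ?_⟩
      rcases le_total σ S with h | h
      · have h1 := hB σ ⟨hσ, h⟩
        have hB0 : 0 ≤ B := (norm_nonneg _).trans h1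
        calc ‖V σ T‖ ≤ B := h1
          _ = B * Real.exp (30 * S) * Real.exp (-30 * S) := by
              rw [mul_assoc, ← Real.exp_add]; ring_nf; simp
          _ ≤ B * Real.exp (30 * S) * Real.exp (-30 * σ) := by
              refine mul_le_mul_of_nonneg_left (Real.exp_le_exp.mpr (by linarith)) (by positivity)
          _ ≤ _ := mul_le_mul_of_nonneg_right (le_max_right _ _) (Real.exp_pos _).le
      · have h1 : 4 * (C' * Real.exp (-30 * σ)) * T ≤ 1 := by
          have h2 : Real.exp (-(30 * σ)) ≤ 1 / (1 + 30 * σ) := exp_neg_le_inv (by linarith)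
          have h3 : Real.exp (-30 * σ) ≤ 1 / (1 + 30 * σ) := by
            have : -30 * σ = -(30 * σ) := by ring
            rw [this]; exact h2
          have h4 : 0 < 1 + 30 * σ := by linarith
          calc 4 * (C' * Real.exp (-30 * σ)) * T = S * Real.exp (-30 * σ) := by rw [hS]; ring
            _ ≤ S * (1 / (1 + 30 * σ)) := mul_le_mul_of_nonneg_left h3 hS0
            _ ≤ 1 := by
                rw [mul_one_div, div_le_one h4]
                linarith
        have h3 := hRC ν V hV σ T (C' * Real.exp (-30 * σ)) hσ hT0 (by positivity) (hCC σ hσ) h1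
        calc ‖V σ T‖ ≤ 2 * (C' * Real.exp (-30 * σ)) := h3
          _ = 2 * C' * Real.exp (-30 * σ) := by ring
          _ ≤ _ := mul_le_mul_of_nonneg_right (le_max_left _ _) (Real.exp_pos _).le
    have h1 := hFE ν V hV T CT _ hT0 (fun σ hσ => (hTb T hTb' σ hσ).le) (hTc T hTc') hCT hRAT
    have h2 : ‖Complex.exp (-(Complex.I * (om 1 : ℂ) * T)) * a‖ = ‖a‖ := by
      rw [norm_mul, Complex.norm_exp]
      simp
    rw [h2] at h1
    exact h1
  have hlim : Tendsto (fun T => 2 * ‖V 0 T‖) atTop (𝓝 (2 * 0)) := hleft.const_mul 2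
  have h3 : ‖a‖ ≤ 2 * 0 := ge_of_tendsto hlim (eventually_atTop.mpr ⟨max Tb Tc, hbound⟩)
  simpa using h3

end H23.QN
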