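import Pool.Agent.H23.QN.P_L1
import Pool.Agent.H23.QN.P_G

/-! # QN: uniqueness of solutions in the class `IsSol` -/

namespace H23.QN

open Filter Topology Set
open scoped BigOperators

noncomputable section

/-- Fourier side of a function in `A_ν` -/
def toWA {ν : ℝ} [Fact (1 ≤ ν)] (f : C(UnitAddCircle, ℂ)) (h : InA ν f) : WA ν ℂ :=
  WA.mk (fun k => fourierCoeff f k) h

lemma fourierCoeff_sub' (f g : C(UnitAddCircle, ℂ)) (k : ℤ) :
    fourierCoeff (f - g : C(UnitAddCircle, ℂ)) k = fourierCoeff f k - fourierCoeff g k := by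
  unfold fourierCoeff
  rw [← MeasureTheory.integral_sub]
  · congr 1
    funext t
    simp [mul_sub]
  · exact (Continuous.integrable_of_hasCompactSupport (by fun_prop)
      (HasCompactSupport.of_compactSpace _))
  · exact (Continuous.integrable_of_hasCompactSupport (by fun_prop)
      (HasCompactSupport.of_compactSpace _))

lemma core_unique {ν : ℝ} [Fact (1 ≤ ν)] {c : ℂ} (hc : 0 ≤ c.re) (hc1 : ‖c‖ ≤ 1)
    {X Y : ℝ → WA ν ℂ} {L : ℝ} (hL : 0 ≤ L)
    (hX : ContinuousOn X (Icc 0 L)) (hY : ContinuousOn Y (Icc 0 L))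
    (dX : ∀ t ∈ Ico 0 L, ∀ k : ℤ, HasDerivWithinAt (fun s => X s k)
      (c * (-((om k : ℂ) * X t k) + (X t * X t) k)) (Ici t) t)
    (dY : ∀ t ∈ Ico 0 L, ∀ k : ℤ, HasDerivWithinAt (fun s => Y s k)
      (c * (-((om k : ℂ) * Y t k) + (Y t * Y t) k)) (Ici t) t)
    (h0 : X 0 = Y 0) : X L = Y L := by
  have hom : ∀ k : ℤ, 0 ≤ om k := fun k => by unfold om; positivity
  obtain ⟨K, hK⟩ := (isCompact_Icc (a := (0:ℝ)) (b := L)).exists_bound_of_continuousOn (hX.add hY)
  have hlin : IsLin c L (fun t => X t - Y t) (fun t => c • ((X t + Y t) * (X t - Y t))) :=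
    { contU := hX.sub hY
      contN := ((hX.add hY).mul (hX.sub hY)).const_smul c
      deriv := by
        intro k t ht
        have h1 := (dX t ht k).sub (dY t ht k)
        refine h1.congr_deriv ?_
        have h2 : ((X t + Y t) * (X t - Y t) : WA ν ℂ) = X t * X t - Y t * Y t := by
          rw [mul_sub, add_mul, add_mul, mul_comm (X t) (Y t)]; abel
        simp only [h2, WA.sub_apply, WA.smul_apply, smul_eq_mul]
        ring }
  have h1 := G1 L1 ν c L 0 (max K 0) _ _ hL (le_max_right _ _) hlin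
    (fun k => Or.inr (mul_nonneg hc (hom k)))
    (fun t ht => by
      rw [norm_smul]
      have h2 := hK t ht
      have h3 := WA.norm_mul_le' (X t + Y t) (X t - Y t)
      calc ‖c‖ * ‖(X t + Y t) * (X t - Y t)‖ ≤ 1 * (‖X t + Y t‖ * ‖X t - Y t‖) :=
            mul_le_mul hc1 h3 (norm_nonneg _) zero_le_one
        _ ≤ max K 0 * ‖X t - Y t‖ := by
            rw [one_mul]
            exact mul_le_mul_of_nonneg_right (h2.trans (le_max_left _ _)) (norm_nonneg _))
    L ⟨hL, le_rfl⟩
  simp only [h0, sub_self, norm_zero, zero_mul] at h1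
  exact sub_eq_zero.mp (norm_le_zero_iff.mp h1)

/-- The Fourier side of a solution on a set `J ⊇ d • [0, L]`, `d = ±1`. -/
lemma sol_fourier (hBR : S_BR1) {ν : ℝ} [hν : Fact (1 ≤ ν)] {J : Set ℝ} (hJ : J.OrdConnected)
    {u : ℝ → C(UnitAddCircle, ℂ)} (hu : IsSol ν J u) {d L : ℝ} (hd : d = 1 ∨ d = -1)
    (hsub : ∀ s ∈ Icc 0 L, d * s ∈ J) :
    ∃ X : ℝ → WA ν ℂ, ContinuousOn X (Icc 0 L) ∧
      (∀ s ∈ Icc 0 L, ∀ k : ℤ, X s k = fourierCoeff (u (d * s)) k) ∧
      (∀ t ∈ Ico 0 L, ∀ k : ℤ, HasDerivWithinAt (fun s => X s k)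
      (((d : ℂ) * Complex.I) * (-((om k : ℂ) * X t k) + (X t * X t) k)) (Ici t) t) := by
  classical
  set X : ℝ → WA ν ℂ := fun s => if h : InA ν (u (d * s)) then toWA (u (d * s)) h else 0 with hX
  have hXk : ∀ s ∈ Icc 0 L, ∀ k : ℤ, X s k = fourierCoeff (u (d * s)) k := by
    intro s hs k
    have h1 : InA ν (u (d * s)) := hu.mem _ (hsub s hs)
    simp only [hX, h1, dif_pos]
    rfl
  refine ⟨X, ?_, hXk, ?_⟩
  · intro t ht
    rw [ContinuousWithinAt, tendsto_iff_norm_sub_tendsto_zero]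
    have h1 := hu.cont (d * t) (hsub t ht)
    have h2 : Tendsto (fun s => d * s) (𝓝[Icc 0 L] t) (𝓝[J] (d * t)) := by
      apply tendsto_nhdsWithin_of_tendsto_nhds_of_eventually_within
      · exact ((continuous_const.mul continuous_id).tendsto t).mono_left nhdsWithin_le_nhds
      · filter_upwards [self_mem_nhdsWithin] with s hs
        exact hsub s hs
    have h3 := h1.comp h2
    refine h3.congr' ?_
    filter_upwards [self_mem_nhdsWithin] with s hs
    simp only [Function.comp, nrmA, WA.norm_def]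
    refine tsum_congr (fun k => ?_)
    rw [fourierCoeff_sub', WA.sub_apply, hXk s hs, hXk t ht]
  · intro t ht k
    have ht' : t ∈ Icc 0 L := ⟨ht.1, ht.2.le⟩
    have h1 := hu.eqn (d * t) (hsub t ht') k
    have hmaps : MapsTo (fun s : ℝ => d * s) (Icc t L) J :=
      fun s hs => hsub s ⟨ht.1.trans hs.1, hs.2⟩
    have h2 : HasDerivWithinAt (fun s : ℝ => d * s) d (Icc t L) t := by
      simpa using ((hasDerivAt_id t).const_mul d).hasDerivWithinAt
    have h3 := HasDerivWithinAt.scomp t h1 h2 hmaps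
    have h4 : HasDerivWithinAt (fun s => X s k)
        (d • (Complex.I * (-(4 * (Real.pi : ℂ) ^ 2 * (k : ℂ) ^ 2 * fourierCoeff (u (d * t)) k)
      + fourierCoeff (u (d * t) * u (d * t) : C(UnitAddCircle, ℂ)) k))) (Icc t L) t := by
      refine h3.congr (fun s hs => ?_) ?_
      · exact hXk s ⟨ht.1.trans hs.1, hs.2⟩ k
      · exact hXk t ht' k
    have h5 : Icc t L ∈ 𝓝[Ici t] t := Icc_mem_nhdsGE ht.2
    have h6 := h4.mono_of_mem_nhdsWithin h5
    refine h6.congr_deriv ?_
    have hs1 : Summable (fun k : ℤ => ‖fourierCoeff (u (d * t)) k‖) := by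
      refine Summable.of_nonneg_of_le (fun k => norm_nonneg _) (fun k => ?_)
        (hu.mem _ (hsub t ht'))
      exact le_mul_of_one_le_right (norm_nonneg _) (one_le_wt ν k)
    rw [hBR _ hs1 k, WA.mul_apply, hXk t ht' k]
    have h7 : ∑' j : ℤ, X t j * X t (k - j)
        = ∑' j : ℤ, fourierCoeff (u (d * t)) j * fourierCoeff (u (d * t)) (k - j) :=
      tsum_congr (fun j => by rw [hXk t ht' j, hXk t ht' (k - j)])
    rw [h7, om]
    push_cast
    rw [Complex.real_smul]
    ring

/-- Uniqueness of solutions on an interval containing `0`. -/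
theorem UQ (hBR : S_BR1) : ∀ ν : ℝ, 1 ≤ ν → ∀ J : Set ℝ, J.OrdConnected → (0:ℝ) ∈ J →
    ∀ u w : ℝ → C(UnitAddCircle, ℂ), IsSol ν J u → IsSol ν J w → u 0 = w 0 →
    ∀ t ∈ J, u t = w t := by
  intro ν hν J hJ h0J u w hu hw h0 t ht
  haveI : Fact (1 ≤ ν) := ⟨hν⟩
  -- equality of Fourier coefficients
  have key : ∀ (d L : ℝ), (d = 1 ∨ d = -1) → 0 ≤ L → d * L ∈ J →
      ∀ k : ℤ, fourierCoeff (u (d * L)) k = fourierCoeff (w (d * L)) k := by
    intro d L hd hL hdL k
    have hsub : ∀ s ∈ Icc 0 L, d * s ∈ J := by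
      intro s hs
      rcases hd with h | h
      · subst h
        exact hJ.out h0J hdL ⟨by simpa using hs.1, by simpa using hs.2⟩
      · subst h
        exact hJ.out hdL h0J ⟨by linarith [hs.2], by linarith [hs.1]⟩
    obtain ⟨X, cX, eX, dX⟩ := sol_fourier hBR hJ hu hd hsub
    obtain ⟨Y, cY, eY, dY⟩ := sol_fourier hBR hJ hw hd hsub
    have hc : 0 ≤ ((d : ℂ) * Complex.I).re := by simp
    have hc1 : ‖(d : ℂ) * Complex.I‖ ≤ 1 := by
      rw [norm_mul, Complex.norm_I, mul_one, Complex.norm_real, Real.norm_eq_abs]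
      rcases hd with h | h <;> rw [h] <;> simp
    have h00 : (0:ℝ) ∈ Icc 0 L := ⟨le_rfl, hL⟩
    have hXY : X 0 = Y 0 := by
      ext j
      rw [eX 0 h00 j, eY 0 h00 j, mul_zero, h0]
    have h1 := core_unique hc hc1 hL cX cY dX dY hXY
    have h2 : X L k = Y L k := by rw [h1]
    rwa [eX L ⟨hL, le_rfl⟩ k, eY L ⟨hL, le_rfl⟩ k] at h2
  have hall : ∀ k : ℤ, fourierCoeff (u t) k = fourierCoeff (w t) k := by
    intro k
    rcases le_total 0 t with h | h
    · have := key 1 t (Or.inl rfl) h (by simpa using ht) k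
      simpa using this
    · have := key (-1) (-t) (Or.inr rfl) (by linarith) (by simpa using ht) k
      simpa using this
  -- equality of functions
  have hsummable : ∀ f : C(UnitAddCircle, ℂ), InA ν f → Summable (fourierCoeff f) := by
    intro f hf
    refine Summable.of_norm (Summable.of_nonneg_of_le (fun k => norm_nonneg _) (fun k => ?_) hf)
    exact le_mul_of_one_le_right (norm_nonneg _) (one_le_wt ν k)
  have h3 := hasSum_fourier_series_of_summable (hsummable _ (hu.mem t ht))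
  have h4 := hasSum_fourier_series_of_summable (hsummable _ (hw.mem t ht))
  have h5 : (fun i => fourierCoeff (u t) i • (fourier i : C(UnitAddCircle, ℂ)))
      = (fun i => fourierCoeff (w t) i • (fourier i : C(UnitAddCircle, ℂ))) := by
    funext i; rw [hall i]
  rw [h5] at h3
  exact h3.unique h4

end

end H23.QN
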