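import Mathlib

/-!
# Weighted Wiener algebra on the Fourier side

`WA ν R` is the space of all `a : ℤ → R` with `∑ ‖a k‖ ν^|k| < ∞` (`1 ≤ ν`), with the norm
`‖a‖ = ∑ ‖a k‖ ν^|k|`, the convolution product and coefficientwise scalar multiplication.
-/

namespace H23.QN

open Filter Topology Set
open scoped BigOperators

noncomputable section

variable {ν : ℝ} [hν : Fact (1 ≤ ν)] {R : Type*} [NormedCommRing R]

lemma one_le_nu (ν : ℝ) [hν : Fact (1 ≤ ν)] : 1 ≤ ν := hν.out

lemma wt_pos (ν : ℝ) [hν : Fact (1 ≤ ν)] (k : ℤ) : 0 < ν ^ k.natAbs :=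
  pow_pos (lt_of_lt_of_le one_pos hν.out) _

lemma one_le_wt (ν : ℝ) [hν : Fact (1 ≤ ν)] (k : ℤ) : 1 ≤ ν ^ k.natAbs :=
  one_le_pow₀ hν.out

lemma wt_le_mul (ν : ℝ) [hν : Fact (1 ≤ ν)] (j k : ℤ) :
    ν ^ k.natAbs ≤ ν ^ j.natAbs * ν ^ (k - j).natAbs := by
  rw [← pow_add]
  apply pow_le_pow_right₀ hν.out
  omega

/-- the additive group of sequences with finite weighted norm -/
def WAsub (ν : ℝ) [Fact (1 ≤ ν)] (R : Type*) [NormedCommRing R] : AddSubgroup (ℤ → R) where
  carrier := {a | Summable fun k => ‖a k‖ * ν ^ k.natAbs}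
  zero_mem' := by
    simp
  add_mem' := by
    intro a b ha hb
    refine Summable.of_nonneg_of_le
      (fun k => mul_nonneg (norm_nonneg _) (wt_pos ν k).le) (fun k => ?_) (ha.add hb)
    rw [← add_mul]
    exact mul_le_mul_of_nonneg_right (norm_add_le _ _) (wt_pos ν k).le
  neg_mem' := by
    intro a ha
    simpa using ha

/-- The weighted Wiener algebra (Fourier side). -/
def WA (ν : ℝ) [Fact (1 ≤ ν)] (R : Type*) [NormedCommRing R] : Type _ := ↥(WAsub ν R)

namespace WA

instance : AddCommGroup (WA ν R) := inferInstanceAs (AddCommGroup ↥(WAsub ν R))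

instance : CoeFun (WA ν R) fun _ => ℤ → R := ⟨fun a => Subtype.val a⟩

/-- constructor -/
def mk (a : ℤ → R) (h : Summable fun k => ‖a k‖ * ν ^ k.natAbs) : WA ν R := ⟨a, h⟩

@[simp] lemma mk_apply (a : ℤ → R) (h : Summable fun k => ‖a k‖ * ν ^ k.natAbs) (k : ℤ) :
    (mk a h : WA ν R) k = a k := rfl

@[ext] lemma ext {a b : WA ν R} (h : ∀ k, a k = b k) : a = b :=
  Subtype.ext (funext h)

lemma summ (a : WA ν R) : Summable fun k => ‖a k‖ * ν ^ k.natAbs := Subtype.property a

@[simp] lemma zero_apply (k : ℤ) : (0 : WA ν R) k = 0 := rfl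
@[simp] lemma add_apply (a b : WA ν R) (k : ℤ) : (a + b) k = a k + b k := rfl
@[simp] lemma sub_apply (a b : WA ν R) (k : ℤ) : (a - b) k = a k - b k := rfl
@[simp] lemma neg_apply (a : WA ν R) (k : ℤ) : (-a) k = -a k := rfl

instance : Norm (WA ν R) := ⟨fun a => ∑' k, ‖a k‖ * ν ^ k.natAbs⟩

lemma norm_def (a : WA ν R) : ‖a‖ = ∑' k, ‖a k‖ * ν ^ k.natAbs := rfl

lemma term_nonneg (a : WA ν R) (k : ℤ) : 0 ≤ ‖a k‖ * ν ^ k.natAbs :=
  mul_nonneg (norm_nonneg _) (wt_pos ν k).le

lemma term_le_norm (a : WA ν R) (k : ℤ) : ‖a k‖ * ν ^ k.natAbs ≤ ‖a‖ :=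
  (summ a).le_tsum k (fun j _ => term_nonneg a j)

lemma coef_le (a : WA ν R) (k : ℤ) : ‖a k‖ ≤ ‖a‖ :=
  (le_mul_of_one_le_right (norm_nonneg _) (one_le_wt ν k)).trans (term_le_norm a k)

lemma sum_le_norm (a : WA ν R) (s : Finset ℤ) : ∑ k ∈ s, ‖a k‖ * ν ^ k.natAbs ≤ ‖a‖ :=
  (summ a).sum_le_tsum s (fun j _ => term_nonneg a j)

/-- To bound the norm it suffices to bound all finite partial sums. -/
lemma norm_le_of_sum_le (a : WA ν R) {C : ℝ}
    (h : ∀ s : Finset ℤ, ∑ k ∈ s, ‖a k‖ * ν ^ k.natAbs ≤ C) : ‖a‖ ≤ C :=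
  (summ a).tsum_le_of_sum_le h

instance : NormedAddCommGroup (WA ν R) :=
  AddGroupNorm.toNormedAddCommGroup
    { toFun := fun a => ‖a‖
      map_zero' := by simp [norm_def]
      add_le' := by
        intro a b
        rw [norm_def, norm_def, norm_def, ← (summ a).tsum_add (summ b)]
        refine (summ (a + b)).tsum_le_tsum (fun k => ?_) ((summ a).add (summ b))
        rw [← add_mul]
        exact mul_le_mul_of_nonneg_right (norm_add_le _ _) (wt_pos ν k).le
      neg' := by intro a; simp [norm_def]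
      eq_zero_of_map_eq_zero' := by
        intro a ha
        ext k
        have h1 := coef_le a k
        have h2 : ‖a‖ = 0 := ha
        rw [h2] at h1
        simpa using h1 }

variable {𝕜 : Type*} [NormedField 𝕜] [NormedSpace 𝕜 R]

lemma smul_summ (c : 𝕜) (a : WA ν R) : Summable fun k => ‖c • a k‖ * ν ^ k.natAbs := by
  have := (summ a).mul_left ‖c‖
  refine this.congr (fun k => ?_)
  rw [norm_smul]; ring

instance : SMul 𝕜 (WA ν R) := ⟨fun c a => mk (fun k => c • a k) (smul_summ c a)⟩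

@[simp] lemma smul_apply (c : 𝕜) (a : WA ν R) (k : ℤ) : (c • a) k = c • a k := rfl

instance : Module 𝕜 (WA ν R) where
  one_smul a := by ext k; simp
  mul_smul c d a := by ext k; simp [mul_smul]
  smul_zero c := by ext k; simp
  smul_add c a b := by ext k; simp
  add_smul c d a := by ext k; simp [add_smul]
  zero_smul a := by ext k; simp

instance : NormedSpace 𝕜 (WA ν R) where
  norm_smul_le c a := by
    apply le_of_eq
    rw [norm_def, norm_def, ← tsum_mul_left]
    refine tsum_congr (fun k => ?_)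
    rw [smul_apply, norm_smul]; ring

/-- The `k`-th coefficient as a continuous linear map. -/
def coefL (k : ℤ) : WA ν R →+ R where
  toFun a := a k
  map_zero' := rfl
  map_add' _ _ := rfl

lemma norm_coef_sub_le (a b : WA ν R) (k : ℤ) : ‖a k - b k‖ ≤ ‖a - b‖ := by
  rw [← sub_apply]; exact coef_le _ k

lemma continuous_coef (k : ℤ) : Continuous fun a : WA ν R => a k := by
  have : LipschitzWith 1 fun a : WA ν R => a k :=
    LipschitzWith.of_dist_le_mul (fun a b => by
      rw [dist_eq_norm, dist_eq_norm]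
      simpa using norm_coef_sub_le a b k)
  exact this.continuous

/-! ### Completeness -/

section complete

variable [NormedSpace ℝ R]

lemma memℓp_scaled (a : WA ν R) :
    Memℓp (fun k : ℤ => (ν ^ k.natAbs : ℝ) • a k) 1 := by
  rw [memℓp_gen_iff (by norm_num)]
  simp only [ENNReal.toReal_one, Real.rpow_one]
  refine (summ a).congr (fun k => ?_)
  rw [norm_smul, Real.norm_of_nonneg (wt_pos ν k).le, mul_comm]

/-- isometric isomorphism with `ℓ¹`. -/
def toLp : WA ν R ≃ₗᵢ[ℝ] lp (fun _ : ℤ => R) 1 where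
  toFun a := ⟨fun k : ℤ => (ν ^ k.natAbs : ℝ) • a k, memℓp_scaled a⟩
  map_add' a b := by
    apply Subtype.ext; funext k
    change (ν ^ k.natAbs : ℝ) • (a k + b k) = _
    rw [smul_add]; rfl
  map_smul' c a := by
    apply Subtype.ext; funext k
    change (ν ^ k.natAbs : ℝ) • (c • a k) = c • ((ν ^ k.natAbs : ℝ) • a k)
    rw [smul_comm]
  invFun f := mk (fun k => (ν ^ k.natAbs : ℝ)⁻¹ • f k) (by
    have h := lp.memℓp f
    rw [memℓp_gen_iff (by norm_num)] at h
    simp only [ENNReal.toReal_one, Real.rpow_one] at h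
    refine h.congr (fun k => ?_)
    rw [norm_smul, norm_inv, Real.norm_of_nonneg (wt_pos ν k).le]
    field_simp [(wt_pos ν k).ne'])
  left_inv a := by
    ext k
    change (ν ^ k.natAbs : ℝ)⁻¹ • ((ν ^ k.natAbs : ℝ) • a k) = a k
    rw [inv_smul_smul₀ (wt_pos ν k).ne']
  right_inv f := by
    apply Subtype.ext; funext k
    change (ν ^ k.natAbs : ℝ) • ((ν ^ k.natAbs : ℝ)⁻¹ • f k) = f k
    rw [smul_inv_smul₀ (wt_pos ν k).ne']
  norm_map' a := by
    change ‖(⟨fun k : ℤ => (ν ^ k.natAbs : ℝ) • a k, memℓp_scaled a⟩ : lp (fun _ : ℤ => R) 1)‖ = _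
    rw [lp.norm_eq_tsum_rpow (by norm_num)]
    simp only [ENNReal.toReal_one, Real.rpow_one, div_one]
    rw [norm_def]
    refine tsum_congr (fun k => ?_)
    change ‖(ν ^ k.natAbs : ℝ) • a k‖ = _
    rw [norm_smul, Real.norm_of_nonneg (wt_pos ν k).le, mul_comm]

instance [CompleteSpace R] : CompleteSpace (WA ν R) := by
  have e := (toLp : WA ν R ≃ₗᵢ[ℝ] lp (fun _ : ℤ => R) 1)
  exact (completeSpace_congr (e := e.toEquiv) e.isometry.isUniformEmbedding).2 inferInstance

end complete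

/-! ### The product -/

section mul

lemma summ_prod (a b : WA ν R) :
    Summable fun p : ℤ × ℤ => ‖a p.2 * b (p.1 - p.2)‖ * ν ^ p.1.natAbs := by
  have h1 : Summable fun p : ℤ × ℤ =>
      (‖a p.1‖ * ν ^ p.1.natAbs) * (‖b p.2‖ * ν ^ p.2.natAbs) :=
    (summ a).mul_of_nonneg (summ b) (term_nonneg a) (term_nonneg b)
  let e : ℤ × ℤ ≃ ℤ × ℤ :=
    { toFun := fun p => (p.2, p.1 - p.2)
      invFun := fun p => (p.1 + p.2, p.1)
      left_inv := fun p => by simp
      right_inv := fun p => by simp }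
  have h2 := (e.summable_iff).2 h1
  refine Summable.of_nonneg_of_le
    (fun p => mul_nonneg (norm_nonneg _) (wt_pos ν _).le) (fun p => ?_) h2
  change _ ≤ (‖a p.2‖ * ν ^ p.2.natAbs) * (‖b (p.1 - p.2)‖ * ν ^ (p.1 - p.2).natAbs)
  have h3 := wt_le_mul ν p.2 p.1
  have h4 := norm_mul_le (a p.2) (b (p.1 - p.2))
  calc ‖a p.2 * b (p.1 - p.2)‖ * ν ^ p.1.natAbs
      ≤ (‖a p.2‖ * ‖b (p.1 - p.2)‖) * (ν ^ p.2.natAbs * ν ^ (p.1 - p.2).natAbs) :=
        mul_le_mul h4 h3 (wt_pos ν _).le (mul_nonneg (norm_nonneg _) (norm_nonneg _))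
    _ = _ := by ring

variable [CompleteSpace R]

lemma summ_conv (a b : WA ν R) (k : ℤ) : Summable fun j => a j * b (k - j) := by
  have h := (summ_prod a b).prod_factor k
  have h2 : Summable fun j => ‖a j * b (k - j)‖ := by
    have h3 := h.mul_right (ν ^ k.natAbs)⁻¹
    refine h3.congr (fun j => ?_)
    have := (wt_pos ν k).ne'
    field_simp
  exact h2.of_norm

lemma summ_norm_conv (a b : WA ν R) (k : ℤ) : Summable fun j => ‖a j * b (k - j)‖ := by
  have h := (summ_prod a b).prod_factor k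
  have h3 := h.mul_right (ν ^ k.natAbs)⁻¹
  refine h3.congr (fun j => ?_)
  have := (wt_pos ν k).ne'
  field_simp

lemma conv_summ (a b : WA ν R) :
    Summable fun k => ‖∑' j, a j * b (k - j)‖ * ν ^ k.natAbs := by
  have h := (summ_prod a b).prod
  refine Summable.of_nonneg_of_le
    (fun p => mul_nonneg (norm_nonneg _) (wt_pos ν _).le) (fun k => ?_) h
  change _ ≤ ∑' j, ‖a j * b (k - j)‖ * ν ^ k.natAbs
  rw [tsum_mul_right]
  exact mul_le_mul_of_nonneg_right (norm_tsum_le_tsum_norm (summ_norm_conv a b k))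
    (wt_pos ν k).le

instance : Mul (WA ν R) := ⟨fun a b => mk (fun k => ∑' j, a j * b (k - j)) (conv_summ a b)⟩

lemma mul_apply (a b : WA ν R) (k : ℤ) : (a * b) k = ∑' j, a j * b (k - j) := rfl

lemma norm_mul_le' (a b : WA ν R) : ‖a * b‖ ≤ ‖a‖ * ‖b‖ := by
  have h1 : Summable fun p : ℤ × ℤ =>
      (‖a p.1‖ * ν ^ p.1.natAbs) * (‖b p.2‖ * ν ^ p.2.natAbs) :=
    (summ a).mul_of_nonneg (summ b) (term_nonneg a) (term_nonneg b)
  let e : ℤ × ℤ ≃ ℤ × ℤ :=
    { toFun := fun p => (p.2, p.1 - p.2)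
      invFun := fun p => (p.1 + p.2, p.1)
      left_inv := fun p => by simp
      right_inv := fun p => by simp }
  have h2 := (e.summable_iff).2 h1
  calc ‖a * b‖ = ∑' k, ‖∑' j, a j * b (k - j)‖ * ν ^ k.natAbs := rfl
    _ ≤ ∑' k, ∑' j, ‖a j * b (k - j)‖ * ν ^ k.natAbs := by
        refine (conv_summ a b).tsum_le_tsum (fun k => ?_) (summ_prod a b).prod
        rw [tsum_mul_right]
        exact mul_le_mul_of_nonneg_right (norm_tsum_le_tsum_norm (summ_norm_conv a b k))
          (wt_pos ν k).le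
    _ = ∑' p : ℤ × ℤ, ‖a p.2 * b (p.1 - p.2)‖ * ν ^ p.1.natAbs :=
        ((summ_prod a b).tsum_prod).symm
    _ ≤ ∑' p : ℤ × ℤ, ((fun p : ℤ × ℤ =>
      (‖a p.1‖ * ν ^ p.1.natAbs) * (‖b p.2‖ * ν ^ p.2.natAbs)) (e p)) := by
        refine (summ_prod a b).tsum_le_tsum (fun p => ?_) h2
        change _ ≤ (‖a p.2‖ * ν ^ p.2.natAbs) * (‖b (p.1 - p.2)‖ * ν ^ (p.1 - p.2).natAbs)
        have h3 := wt_le_mul ν p.2 p.1
        have h4 := norm_mul_le (a p.2) (b (p.1 - p.2))
        calc ‖a p.2 * b (p.1 - p.2)‖ * ν ^ p.1.natAbs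
            ≤ (‖a p.2‖ * ‖b (p.1 - p.2)‖) * (ν ^ p.2.natAbs * ν ^ (p.1 - p.2).natAbs) :=
              mul_le_mul h4 h3 (wt_pos ν _).le (mul_nonneg (norm_nonneg _) (norm_nonneg _))
          _ = _ := by ring
    _ = ∑' p : ℤ × ℤ, (‖a p.1‖ * ν ^ p.1.natAbs) * (‖b p.2‖ * ν ^ p.2.natAbs) :=
        e.tsum_eq (fun p : ℤ × ℤ => (‖a p.1‖ * ν ^ p.1.natAbs) * (‖b p.2‖ * ν ^ p.2.natAbs))
    _ = ‖a‖ * ‖b‖ := ((summ a).tsum_mul_tsum (summ b) h1).symm

instance : NonUnitalNonAssocCommRing (WA ν R) :=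
  { (inferInstance : AddCommGroup (WA ν R)), (inferInstance : Mul (WA ν R)) with
    left_distrib := by
      intro a b c
      ext k
      rw [mul_apply, add_apply, mul_apply, mul_apply,
        ← (summ_conv a b k).tsum_add (summ_conv a c k)]
      refine tsum_congr (fun j => ?_)
      rw [add_apply, mul_add]
    right_distrib := by
      intro a b c
      ext k
      rw [mul_apply, add_apply, mul_apply, mul_apply,
        ← (summ_conv a c k).tsum_add (summ_conv b c k)]
      refine tsum_congr (fun j => ?_)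
      rw [add_apply, add_mul]
    zero_mul := by intro a; ext k; simp [mul_apply]
    mul_zero := by intro a; ext k; simp [mul_apply]
    mul_comm := by
      intro a b
      ext k
      rw [mul_apply, mul_apply, ← (Equiv.subLeft k).tsum_eq]
      refine tsum_congr (fun j => ?_)
      simp only [Equiv.subLeft_apply, sub_sub_cancel]
      rw [mul_comm] }

end mul

lemma smul_mul' (c : ℂ) (a b : WA ν ℂ) : (c • a) * b = c • (a * b) := by
  ext k
  rw [smul_apply, mul_apply, mul_apply, smul_eq_mul, ← tsum_mul_left]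
  refine tsum_congr (fun j => ?_)
  rw [smul_apply, smul_eq_mul, mul_assoc]

lemma mul_smul' (c : ℂ) (a b : WA ν ℂ) : a * (c • b) = c • (a * b) := by
  rw [mul_comm, smul_mul', mul_comm]

/-! ### Constants and the mean-free part -/

/-- constant function with value `c` -/
def cst (c : R) : WA ν R := mk (Pi.single 0 c) (by
  refine summable_of_ne_finset_zero (s := {0}) (fun k hk => ?_)
  have : k ≠ 0 := by simpa using hk
  simp [this])

lemma cst_apply (c : R) (k : ℤ) : (cst c : WA ν R) k = if k = 0 then c else 0 := by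
  change (Pi.single 0 c : ℤ → R) k = _
  by_cases h : k = 0
  · subst h; simp
  · simp [h]

@[simp] lemma cst_zero_coef (c : R) : (cst c : WA ν R) 0 = c := by simp [cst_apply]

lemma cst_mul [CompleteSpace R] (c : R) (a : WA ν R) (k : ℤ) :
    (cst c * a : WA ν R) k = c * a k := by
  rw [mul_apply, tsum_eq_single 0]
  · simp
  · intro j hj
    simp [cst_apply, hj]

/-- the mean-free part of `a` -/
def mf (a : WA ν R) : WA ν R := mk (fun k => if k = 0 then 0 else a k) (by
  refine Summable.of_nonneg_of_le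
    (fun k => mul_nonneg (norm_nonneg _) (wt_pos ν k).le) (fun k => ?_) (summ a)
  by_cases h : k = 0
  · simp [h]
  · simp [h])

lemma mf_apply (a : WA ν R) (k : ℤ) : mf a k = if k = 0 then 0 else a k := rfl

@[simp] lemma mf_zero_coef (a : WA ν R) : mf a 0 = 0 := by simp [mf_apply]

lemma mf_of_ne (a : WA ν R) {k : ℤ} (hk : k ≠ 0) : mf a k = a k := by simp [mf_apply, hk]

lemma mf_add (a b : WA ν R) : mf (a + b) = mf a + mf b := by
  ext k; by_cases h : k = 0 <;> simp [mf_apply, h]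

lemma mf_sub (a b : WA ν R) : mf (a - b) = mf a - mf b := by
  ext k; by_cases h : k = 0 <;> simp [mf_apply, h]

lemma norm_mf_le (a : WA ν R) : ‖mf a‖ ≤ ‖a‖ := by
  rw [norm_def, norm_def]
  refine (summ (mf a)).tsum_le_tsum (fun k => ?_) (summ a)
  by_cases h : k = 0
  · subst h; simp
  · rw [mf_of_ne a h]

lemma cst_add_mf (a : WA ν R) : cst (a 0) + mf a = a := by
  ext k
  by_cases h : k = 0
  · subst h; simp
  · simp [cst_apply, mf_apply, h]

lemma sq_zero_coef [CompleteSpace R] (a : WA ν R) :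
    (a * a) 0 = a 0 ^ 2 + (mf a * mf a) 0 := by
  have h1 : a * a = cst (a 0) * cst (a 0) + (cst (a 0) * mf a + mf a * cst (a 0)) + mf a * mf a := by
    conv_lhs => rw [← cst_add_mf a]
    rw [mul_add, add_mul, add_mul]; abel
  rw [h1]
  simp only [add_apply, mul_comm (mf a) (cst (a 0)), cst_mul, cst_zero_coef, mf_zero_coef]
  ring

lemma sq_coef [CompleteSpace R] (a : WA ν R) {k : ℤ} (hk : k ≠ 0) :
    (a * a) k = 2 * a 0 * a k + (mf a * mf a) k := by
  have h1 : a * a = cst (a 0) * cst (a 0) + (cst (a 0) * mf a + mf a * cst (a 0)) + mf a * mf a := by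
    conv_lhs => rw [← cst_add_mf a]
    rw [mul_add, add_mul, add_mul]; abel
  rw [h1]
  simp only [add_apply, mul_comm (mf a) (cst (a 0)), cst_mul, mf_of_ne a hk, cst_apply, hk, if_false]
  ring

lemma continuous_mf : Continuous (mf : WA ν R → WA ν R) := by
  have : LipschitzWith 1 (mf : WA ν R → WA ν R) :=
    LipschitzWith.of_dist_le_mul (fun a b => by
      rw [dist_eq_norm, dist_eq_norm, ← mf_sub]
      simpa using norm_mf_le (a - b))
  exact this.continuous

lemma continuous_mul' [CompleteSpace R] :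
    Continuous fun p : WA ν R × WA ν R => p.1 * p.2 := by
  rw [continuous_iff_continuousAt]
  rintro ⟨a, b⟩
  rw [ContinuousAt, tendsto_iff_norm_sub_tendsto_zero]
  have key : ∀ p : WA ν R × WA ν R, ‖p.1 * p.2 - a * b‖ ≤ ‖p.1 - a‖ * ‖p.2‖ + ‖a‖ * ‖p.2 - b‖ := by
    intro p
    have : p.1 * p.2 - a * b = (p.1 - a) * p.2 + a * (p.2 - b) := by
      rw [sub_mul, mul_sub]; abel
    rw [this]
    exact (norm_add_le _ _).trans (add_le_add (norm_mul_le' _ _) (norm_mul_le' _ _))
  refine squeeze_zero (fun _ => norm_nonneg _) key ?_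
  have h1 : Tendsto (fun p : WA ν R × WA ν R => ‖p.1 - a‖) (𝓝 (a, b)) (𝓝 0) := by
    have := ((continuous_fst.sub continuous_const).norm.tendsto (a, b) :
      Tendsto (fun p : WA ν R × WA ν R => ‖p.1 - a‖) (𝓝 (a, b)) (𝓝 ‖(a, b).1 - a‖))
    simpa using this
  have h2 : Tendsto (fun p : WA ν R × WA ν R => ‖p.2 - b‖) (𝓝 (a, b)) (𝓝 0) := by
    have := ((continuous_snd.sub continuous_const).norm.tendsto (a, b) :
      Tendsto (fun p : WA ν R × WA ν R => ‖p.2 - b‖) (𝓝 (a, b)) (𝓝 ‖(a, b).2 - b‖))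
    simpa using this
  have h3 : Tendsto (fun p : WA ν R × WA ν R => ‖p.2‖) (𝓝 (a, b)) (𝓝 ‖b‖) :=
    (continuous_snd.norm.tendsto (a, b) :
      Tendsto (fun p : WA ν R × WA ν R => ‖p.2‖) (𝓝 (a, b)) (𝓝 ‖(a, b).2‖))
  have := (h1.mul h3).add (h2.const_mul ‖a‖)
  simpa using this

instance [CompleteSpace R] : ContinuousMul (WA ν R) := ⟨continuous_mul'⟩

end WA

end

end H23.QN
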